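import Pool.Agent.Run7.h199.CV.Eng

/-!
# Arithmetic of the weights, and automorphisms which fix an algebraic number
-/

set_option autoImplicit false

namespace Run7.h199.CV

open Finset Polynomial Pool.Agent.N876.TC Pool.Agent.N876.UV Pool.Agent.N876.FL

/-- residues of the negative -/
theorem neg_mod {d N x : ℕ} (hN : 0 < N) (hdN : d ∣ N) (hx : ¬ d ∣ x) :
    ((N - 1) * x) % d = d - x % d := by
  have hd : 0 < d := Nat.pos_of_dvd_of_pos hdN hN
  have h1 : 0 < x % d := Nat.pos_of_ne_zero fun h => hx (Nat.dvd_of_mod_eq_zero h)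
  have h2 : x % d < d := Nat.mod_lt _ hd
  have h3 : (N - 1) * x + x = N * x := by
    obtain ⟨m, rfl⟩ : ∃ m, N = m + 1 := ⟨N - 1, by omega⟩
    simp only [Nat.add_sub_cancel]
    ring
  have h4 : (N - 1) * x + x ≡ 0 [MOD d] := by
    rw [h3]
    exact (Nat.modEq_zero_iff_dvd).2 (hdN.mul_right x)
  have h5 : (d - x % d) + x ≡ 0 [MOD d] := by
    have h6 : (d - x % d) + x ≡ (d - x % d) + x % d [MOD d] :=
      Nat.ModEq.add_left _ (Nat.mod_modEq x d).symm
    refine h6.trans ?_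
    rw [Nat.sub_add_cancel h2.le]
    exact (Nat.modEq_zero_iff_dvd).2 dvd_rfl
  have h6 : (N - 1) * x ≡ d - x % d [MOD d] := Nat.ModEq.add_right_cancel' x (h4.trans h5.symm)
  have h7 : ((N - 1) * x) % d = (d - x % d) % d := h6
  rw [h7, Nat.mod_eq_of_lt (by omega)]

/-- the weights of the negative exponents -/
theorem wt_neg {ι : Type} {c f N : ℕ} (hN : 0 < N) {d s : ι → ℕ} (hdN : ∀ i, d i ∣ N)
    (a : ∀ i, Fin (s i) → ℕ) (ha : ∀ i k, (a i k).Coprime (d i)) (hc : ∀ i, c.Coprime (d i))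
    {I : Finset ι} {J : ι → ℕ} (hJ : ∀ i ∈ I, ¬ d i ∣ J i) :
    wt c f N d a I (fun i => (N - 1) * J i) + wt c f N d a I J = f * N * ∑ i ∈ I, s i := by
  unfold wt
  rw [← sum_add_distrib, mul_sum]
  refine sum_congr rfl fun i hi => ?_
  have hd0 : 0 < d i := Nat.pos_of_dvd_of_pos (hdN i) hN
  rw [← mul_add, ← sum_add_distrib]
  have h1 : ∀ k, ∑ t ∈ range f, ((N - 1) * J i * a i k * c ^ t) % d i +
      ∑ t ∈ range f, (J i * a i k * c ^ t) % d i = f * d i := by
    intro k
    rw [← sum_add_distrib]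
    have h2 : ∀ t ∈ range f, ((N - 1) * J i * a i k * c ^ t) % d i +
        (J i * a i k * c ^ t) % d i = d i := by
      intro t _
      have h3 : ¬ d i ∣ J i * a i k * c ^ t := by
        intro h4
        have h5 : (d i).Coprime (c ^ t) := ((hc i).pow_left t).symm
        have h6 := h5.dvd_of_dvd_mul_right h4
        exact hJ i hi ((ha i k).symm.dvd_of_dvd_mul_right h6)
      have h7 : (N - 1) * J i * a i k * c ^ t = (N - 1) * (J i * a i k * c ^ t) := by ring
      rw [h7, neg_mod hN (hdN i) h3]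
      exact Nat.sub_add_cancel (Nat.mod_lt _ hd0).le
    rw [sum_congr rfl h2, sum_const, card_range, smul_eq_mul]
  rw [sum_congr rfl fun k _ => h1 k, sum_const, card_univ, Fintype.card_fin, smul_eq_mul]
  have h8 : N / d i * d i = N := Nat.div_mul_cancel (hdN i)
  calc N / d i * (s i * (f * d i)) = f * (N / d i * d i) * s i := by ring
    _ = f * N * s i := by rw [h8]

/-- the weight as a rational number -/
theorem wt_cast {ι : Type} {c f N : ℕ} (hf : 0 < f) (hN : 0 < N) {d s : ι → ℕ}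
    (hdN : ∀ i, d i ∣ N) (a : ∀ i, Fin (s i) → ℕ) (I : Finset ι) (J : ι → ℕ) :
    (wt c f N d a I J : ℚ) = (f * N) * ∑ i ∈ I,
      (∑ k, ∑ t ∈ range f, (((J i * a i k * c ^ t) % d i : ℕ) : ℚ)) / (f * d i) := by
  have hf' : (0 : ℚ) < f := by exact_mod_cast hf
  unfold wt
  rw [mul_sum]
  push_cast
  refine sum_congr rfl fun i _ => ?_
  have hd0 : (d i : ℚ) ≠ 0 := by
    have := Nat.pos_of_dvd_of_pos (hdN i) hN
    exact_mod_cast this.ne'
  rw [Nat.cast_div (hdN i) hd0]
  field_simp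

/-- the exponent of an embedding on the roots of unity -/
theorem exists_exponent {N : ℕ} (hN : 0 < N) (τ : AA →+* AA) :
    ∃ v : ℕ, ∀ ζ : AA, ζ ^ N = 1 → τ ζ = ζ ^ v := by
  set ζ0 : AA := ⟨th N, th_mem hN⟩ with hζdef
  have hζ : IsPrimitiveRoot ζ0 N :=
    IsPrimitiveRoot.of_map_of_injective (f := algebraMap AA ℂ) (th_prim hN)
      (algebraMap AA ℂ).injective
  have : NeZero N := ⟨hN.ne'⟩
  obtain ⟨v, -, hv⟩ := hζ.eq_pow_of_pow_eq_one (ξ := τ ζ0) (by
    rw [← map_pow, hζ.pow_eq_one, map_one])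
  refine ⟨v, fun ζ h => ?_⟩
  obtain ⟨t, -, rfl⟩ := hζ.eq_pow_of_pow_eq_one h
  rw [map_pow, ← hv, ← pow_mul, ← pow_mul, mul_comm]

/-- an automorphism which fixes `γ` and moves `ζ` -/
theorem exists_moving {γ ζ : AA} (h : (ζ : ℂ) ∉ IntermediateField.adjoin ℚ {(γ : ℂ)}) :
    ∃ τ : AA →+* AA, τ γ = γ ∧ τ ζ ≠ ζ := by
  set F : IntermediateField ℚ ℂ := IntermediateField.adjoin ℚ {(γ : ℂ)} with hF0
  have hF : F ≤ AA := by
    rw [hF0, IntermediateField.adjoin_le_iff]
    rintro x (rfl : x = (γ : ℂ))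
    exact γ.2
  let i : F →+* AA := (IntermediateField.inclusion hF : F →+* AA)
  letI : Algebra F AA := i.toAlgebra
  have halg : ∀ t : AA, IsAlgebraic F t := by
    intro t
    have h1 : IsAlgebraic ℚ (t : ℂ) := mem_algebraicClosure_iff.mp t.2
    obtain ⟨P, hP, hP0⟩ := h1
    refine ⟨P.map (algebraMap ℚ F), ?_, ?_⟩
    · exact (Polynomial.map_ne_zero_iff (algebraMap ℚ F).injective).mpr hP
    · apply Subtype.ext
      rw [aeval_def, eval₂_map]
      have h2 : (algebraMap F AA).comp (algebraMap ℚ F) = algebraMap ℚ AA :=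
        Subsingleton.elim _ _
      rw [h2]
      have h3 := Polynomial.hom_eval₂ P (algebraMap ℚ AA) (algebraMap AA ℂ) t
      have h4 : (algebraMap AA ℂ).comp (algebraMap ℚ AA) = algebraMap ℚ ℂ :=
        Subsingleton.elim _ _
      rw [h4] at h3
      show algebraMap AA ℂ _ = _
      rw [h3]
      exact hP0
  have hint : IsIntegral F ζ := (halg ζ).isIntegral
  have hAC : IsAlgClosed AA := (algebraicClosure.isAlgClosure ℚ ℂ).isAlgClosed
  -- the degree of the minimal polynomial is not one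
  have hdeg : (minpoly F ζ).natDegree ≠ 1 := by
    intro h1
    have h2 := minpoly.mem_range_of_degree_eq_one F ζ (by
      rw [Polynomial.degree_eq_natDegree (minpoly.ne_zero hint), h1]
      rfl)
    obtain ⟨x, hx⟩ := h2
    apply h
    rw [← hx]
    exact x.2
  have hsep : (minpoly F ζ).Separable := (minpoly.irreducible hint).separable
  have hcard : ((minpoly F ζ).rootSet AA).ncard = (minpoly F ζ).natDegree := by
    rw [← Nat.card_coe_set_eq, Nat.card_eq_fintype_card]
    exact Polynomial.card_rootSet_eq_natDegree hsep (IsAlgClosed.splits _)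
  have hpos : 0 < (minpoly F ζ).natDegree := minpoly.natDegree_pos hint
  obtain ⟨y, hy, hyζ⟩ : ∃ y ∈ (minpoly F ζ).rootSet AA, y ≠ ζ := by
    by_contra hcon
    push Not at hcon
    have h3 : (minpoly F ζ).rootSet AA ⊆ {ζ} := fun y hy => hcon y hy
    have h4 := Set.ncard_le_ncard h3
    rw [hcard, Set.ncard_singleton] at h4
    omega
  obtain ⟨φ, hφ⟩ := IntermediateField.exists_algHom_of_splits_of_aeval (F := F) (E := AA) (K := AA)
    (x := ζ) (y := y)
    (fun s => ⟨(halg s).isIntegral, IsAlgClosed.splits _⟩) (by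
      exact (Polynomial.mem_rootSet.1 hy).2)
  refine ⟨(φ : AA →+* AA), ?_, ?_⟩
  · have hγ : (γ : ℂ) ∈ F := IntermediateField.mem_adjoin_simple_self ℚ (γ : ℂ)
    have h1 := φ.commutes (⟨(γ : ℂ), hγ⟩ : F)
    exact h1
  · show φ ζ ≠ ζ
    rw [hφ]
    exact hyζ

end Run7.h199.CV
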