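import Pool.Agent.N876.FL.Core

/-!
# No resonances, from automorphisms of the field of algebraic numbers

Products of Frobenius eigenvalues of cyclic coverings branched along hyperplanes, and of one number `β`: they are not
a power of `q` if some automorphism, which fixes `β` up to a root of unity, changes the weight by more than the sum
of the numbers `s i - n i - 2`.
-/

set_option autoImplicit false

namespace Run7.h199.CV

open Finset Polynomial Pool.Agent.N876.TC Pool.Agent.N876.UV Pool.Agent.N876.FL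
open Pool.Agent.W528.HA Pool.Agent.W528.HB

/-- some embedding of the field of algebraic numbers into itself acts on the roots of unity of order `N` as the
power `v` and fixes the elements of `S` up to roots of unity -/
def MovesBy (N v : ℕ) (S : Set ℂ) : Prop :=
  ∃ τ : AA →+* AA, (∀ ζ : AA, ζ ^ N = 1 → τ ζ = ζ ^ v) ∧
    ∀ β : AA, (β : ℂ) ∈ S → ∃ m : ℕ, 0 < m ∧ τ β ^ m = β ^ m

/-- the weight of the exponents `J` -/
def wt {ι : Type} (c f N : ℕ) (d : ι → ℕ) {s : ι → ℕ} (a : ∀ i, Fin (s i) → ℕ) (I : Finset ι)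
    (J : ι → ℕ) : ℕ :=
  ∑ i ∈ I, (N / d i) * ∑ k, ∑ t ∈ range f, (J i * a i k * c ^ t) % d i

variable {c : ℕ} [Fact c.Prime]

section

variable {ι : Type} {N : ℕ} {d n s : ι → ℕ}
    (hd : ∀ i, 2 ≤ d i) (hdN : ∀ i, d i ∣ N) (κ : Type) [Field κ] [Fintype κ] [CharP κ c] {f : ℕ}
    (hf : Fintype.card κ = c ^ f) {z : ι → κ} (hz : ∀ i, IsPrimitiveRoot (z i) (d i))
    (l : ∀ i, Fin (s i) → Fin (n i + 1) → κ) (a : ∀ i, Fin (s i) → ℕ)
    (ha : ∀ i k, (a i k).Coprime (d i))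
    {W : ι → Type} [∀ i, AddCommGroup (W i)] [∀ i, Module ℂ (W i)]
    [∀ i, FiniteDimensional ℂ (W i)] {Φ g : ∀ i, Module.End ℂ (W i)}
    (h : ∀ i, IsCov (d i) (l i) (a i) (z i) (Φ i) (g i))

/-- the estimates at all embeddings -/
structure Data (c : ℕ) [Fact c.Prime] {ι : Type} (N f : ℕ) (d n : ι → ℕ) {s : ι → ℕ}
    (a : ∀ i, Fin (s i) → ℕ) (I : Finset ι) (α : ι → ℂ) : Type where
  hx : ∀ i ∈ I, α i ∈ AA
  Ω : ι → PadicAlgCl c
  μ : ι → AA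
  prim : ∀ i, IsPrimitiveRoot (Ω i) (d i)
  root : ∀ i ∈ I, μ i ^ d i = 1
  ne : ∀ i ∈ I, μ i ≠ 1
  est : ∀ (fe : AA →+* PadicAlgCl c) (J : ι → ℕ), (∀ i ∈ I, ¬ d i ∣ J i) →
    (∀ i ∈ I, fe (μ i) = Ω i ^ J i) →
    (∏ i ∈ I.attach, ‖fe ⟨α i.1, hx i.1 i.2⟩‖) ^ N *
        ‖((c : ℕ) : PadicAlgCl c)‖ ^ wt c f N d a I J ≤
      ‖((c : ℕ) : PadicAlgCl c)‖ ^ (f * N * ∑ i ∈ I, (n i + 1))

include hd hdN hf hz ha h

theorem exists_data {I : Finset ι} {α : ι → ℂ}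
    (hα : ∀ i ∈ I, (Φ i).HasEigenvalue (α i)) (hα0 : ∀ i ∈ I, α i ≠ 0) :
    Nonempty (Data c N f d n a I α) := by
  classical
  obtain ⟨k, _, R, res, _, _, hR⟩ := Pool.Agent.W999.HB.TP.main c
  have _ : Algebra (ZMod c) κ := ZMod.algebra κ c
  have _ : Algebra (ZMod c) k := ZMod.algebra k c
  have hκk : Nonempty (κ →ₐ[ZMod c] k) := ⟨IsAlgClosed.lift⟩
  obtain ⟨eκ'⟩ := hκk
  set eκ : κ →+* k := (eκ' : κ →+* k)
  have hOm : ∀ i, ∃ Ω : PadicAlgCl c, IsPrimitiveRoot Ω (d i) ∧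
      ∃ h : Ω ∈ R, res ⟨Ω, h⟩ = eκ (z i) := fun i => exists_Om (hd i) hf (hz i) hR eκ
  choose Ω hΩ hΩz using hOm
  have hcs := fun (i : ι) (hi : i ∈ I) => cov_slope (hd i) κ hf (hz i) hR eκ (hΩ i) (hΩz i) (l i)
    (a i) (ha i) (h i) (hα i hi) (hα0 i hi)
  choose hx μ hμ1 hμ2 hμ3 using hcs
  set μ' : ι → AA := fun i => if hi : i ∈ I then μ i hi else 1 with hμ'def
  have hμ' : ∀ i (hi : i ∈ I), μ' i = μ i hi := by
    intro i hi
    simp only [hμ'def]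
    rw [dif_pos hi]
  refine ⟨⟨hx, Ω, μ', hΩ, ?_, ?_, ?_⟩⟩
  · intro i hi
    rw [hμ' i hi]
    exact hμ1 i hi
  · intro i hi
    rw [hμ' i hi]
    exact hμ2 i hi
  · intro fe J hJ hfe
    have hest := fun i (hi : i ∈ I) => hμ3 i hi fe (J i) (hJ i hi) (by rw [← hμ' i hi, hfe i hi])
    set ρ := ‖((c : ℕ) : PadicAlgCl c)‖ with hρ
    have hρ0 : 0 < ρ := norm_c_pos
    have h5 : ∑ i ∈ I, f * (n i + 1) * N = f * N * ∑ i ∈ I, (n i + 1) := by
      rw [mul_sum]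
      exact sum_congr rfl fun i _ => by ring
    unfold wt
    rw [← h5, ← prod_pow, ← prod_pow_eq_pow_sum, ← prod_pow_eq_pow_sum,
      ← prod_attach I (fun i => ρ ^ ((N / d i) * ∑ k, ∑ t ∈ range f, (J i * a i k * c ^ t) % d i)),
      ← prod_attach I (fun i => ρ ^ (f * (n i + 1) * N)), ← prod_mul_distrib]
    apply prod_le_prod
    · intro i _
      exact mul_nonneg (pow_nonneg (norm_nonneg _) _) (pow_nonneg hρ0.le _)
    · intro i _
      have h2 := pow_le_pow_left₀ (mul_nonneg (pow_nonneg (norm_nonneg _) _)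
        (pow_nonneg hρ0.le _)) (hest i.1 i.2) (N / d i.1)
      have h3 : d i.1 * (N / d i.1) = N := Nat.mul_div_cancel' (hdN i.1)
      rw [mul_pow, ← pow_mul, ← pow_mul, ← pow_mul, h3] at h2
      have h4 : f * (n i.1 + 1) * d i.1 * (N / d i.1) = f * (n i.1 + 1) * N := by
        rw [mul_assoc _ (d i.1), h3]
      rw [h4] at h2
      rw [mul_comm (N / d i.1)]
      exact h2

end

section

variable {ι : Type} {N f : ℕ} {d n s : ι → ℕ} {a : ∀ i, Fin (s i) → ℕ} {I : Finset ι}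
  {α : ι → ℂ}

/-- exponents of an embedding -/
theorem Data.exists_exp (D : Data c N f d n a I α) (hd : ∀ i, 2 ≤ d i) (fe : AA →+* PadicAlgCl c) :
    ∃ j : ι → ℕ, (∀ i ∈ I, ¬ d i ∣ j i) ∧ ∀ i ∈ I, fe (D.μ i) = D.Ω i ^ j i := by
  have hj : ∀ i, ∃ j : ℕ, i ∈ I → (¬ d i ∣ j ∧ fe (D.μ i) = D.Ω i ^ j) := by
    intro i
    by_cases hi : i ∈ I
    · have : NeZero (d i) := ⟨by have := hd i; omega⟩
      obtain ⟨j, _, hj⟩ := (D.prim i).eq_pow_of_pow_eq_one (ξ := fe (D.μ i))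
        (by rw [← map_pow, D.root i hi, map_one])
      refine ⟨j, fun _ => ⟨?_, hj.symm⟩⟩
      intro h0
      apply D.ne i hi
      apply fe.injective
      rw [← hj, map_one]
      exact ((D.prim i).pow_eq_one_iff_dvd j).mpr h0
    · exact ⟨0, fun h => absurd h hi⟩
  choose j hj using hj
  exact ⟨j, fun i hi => (hj i hi).1, fun i hi => (hj i hi).2⟩

theorem root_N {I : Finset ι} (D : Data c N f d n a I α) (hdN : ∀ i, d i ∣ N) {i : ι} (hi : i ∈ I) :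
    D.μ i ^ N = 1 := by
  obtain ⟨v, hv⟩ := hdN i
  have h1 : D.μ i ^ (d i * v) = 1 := by rw [pow_mul, D.root i hi, one_pow]
  exact (congrArg (fun t => D.μ i ^ t) hv).trans h1

/-- change of the embedding -/
theorem Data.exists_unit (D : Data c N f d n a I α) (hN : 0 < N) (hdN : ∀ i, d i ∣ N)
    (fe : AA →+* PadicAlgCl c) {j : ι → ℕ} (hj : ∀ i ∈ I, fe (D.μ i) = D.Ω i ^ j i) {u : ℕ}
    (hu : u.Coprime N) :
    ∃ fe' : AA →+* PadicAlgCl c, ∀ i ∈ I, fe' (D.μ i) = D.Ω i ^ (u * j i) := by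
  set ζ : AA := ⟨th N, th_mem hN⟩ with hζdef
  have hζ : IsPrimitiveRoot ζ N :=
    IsPrimitiveRoot.of_map_of_injective (f := algebraMap AA ℂ) (th_prim hN)
      (algebraMap AA ℂ).injective
  have hbot : (⊥ : IntermediateField ℚ ℂ) ≤ AA := bot_le
  obtain ⟨fe', -, hfe2⟩ := emb hbot hN (irr_bot hN) fe hζ hu
  refine ⟨fe', fun i hi => ?_⟩
  have : NeZero N := ⟨hN.ne'⟩
  obtain ⟨t, _, ht⟩ := hζ.eq_pow_of_pow_eq_one (ξ := D.μ i) (root_N D hdN hi)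
  have h1 : fe' (D.μ i) = fe (D.μ i) ^ u := by
    rw [← ht, map_pow, map_pow, hfe2, ← pow_mul, ← pow_mul, mul_comm]
  rw [h1, hj i hi, ← pow_mul, mul_comm]

theorem not_dvd_mul {d N u j : ℕ} (hdN : d ∣ N) (hu : u.Coprime N) (hj : ¬ d ∣ j) :
    ¬ d ∣ u * j := fun h0 =>
  hj ((Nat.Coprime.coprime_dvd_right hdN hu).symm.dvd_of_dvd_mul_left h0)

/-- the exponent of an automorphism is a unit -/
theorem MovesBy.coprime {v : ℕ} {S : Set ℂ} (hN : 0 < N) (h : MovesBy N v S) : v.Coprime N := by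
  obtain ⟨τ, hτ, -⟩ := h
  set ζ : AA := ⟨th N, th_mem hN⟩ with hζdef
  have hζ : IsPrimitiveRoot ζ N :=
    IsPrimitiveRoot.of_map_of_injective (f := algebraMap AA ℂ) (th_prim hN)
      (algebraMap AA ℂ).injective
  have h1 : IsPrimitiveRoot (ζ ^ v) N := by
    rw [← hτ ζ hζ.pow_eq_one]
    exact hζ.map_of_injective τ.injective
  exact (hζ.pow_iff_coprime hN v).1 h1

theorem coprime_pred (hN : 0 < N) : (N - 1).Coprime N := by
  obtain ⟨m, rfl⟩ : ∃ m, N = m + 1 := ⟨N - 1, by omega⟩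
  simp

/-- **No resonance, by an automorphism.** -/
theorem core_auto (hN : 0 < N) (hdN : ∀ i, d i ∣ N) (κ : Type)
    [Field κ] [Fintype κ] [CharP κ c] (hf : Fintype.card κ = c ^ f)
    (D : Data c N f d n a I α)
    (hpure : ∀ i ∈ I, ‖α i‖ ^ 2 = (Fintype.card κ : ℝ) ^ n i)
    {β : ℂ} (hβ : β ∈ AA) {e m w : ℕ}
    (hm : 0 < m) (heq : ((∏ i ∈ I, α i) * (Fintype.card κ : ℂ) ^ e * β) ^ m =
      (Fintype.card κ : ℂ) ^ (m * w))
    {v : ℕ} (hv : MovesBy N v {β})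
    (fe : AA →+* PadicAlgCl c) {J : ι → ℕ} (hJ : ∀ i ∈ I, ¬ d i ∣ J i)
    (hfe : ∀ i ∈ I, fe (D.μ i) = D.Ω i ^ J i)
    (hlt : wt c f N d a I J + wt c f N d a I (fun i => (N - 1) * (v * J i)) <
      f * N * ∑ i ∈ I, (n i + 2)) : False := by
  classical
  have hvN := hv.coprime hN
  obtain ⟨τ, hτ1, hτ2⟩ := hv
  obtain ⟨m', hm', hτβ⟩ := hτ2 ⟨β, hβ⟩ rfl
  have hq : 1 < Fintype.card κ := Fintype.one_lt_card
  set Q := ‖((Fintype.card κ : ℕ) : PadicAlgCl c)‖ with hQ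
  have hQ0 : 0 < Q := norm_card_pos (c := c) (L := κ)
  have hq0 : (Fintype.card κ : ℂ) ≠ 0 := by exact_mod_cast (by omega : Fintype.card κ ≠ 0)
  have hβ0 : β ≠ 0 := by
    intro h0
    rw [h0, mul_zero, zero_pow hm.ne'] at heq
    exact (pow_ne_zero _ hq0) heq.symm
  have hβ1 : ‖fe ⟨β, hβ⟩‖ ≠ 0 := by
    rw [Ne, norm_eq_zero, map_eq_zero]
    intro h0
    exact hβ0 (congrArg Subtype.val h0)
  -- the relations at the two embeddings
  have r1 := rel_emb D.hx hβ hm heq fe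
  have r2 := rel_emb D.hx hβ hm heq (fe.comp τ)
  have hβτ : ‖(fe.comp τ) ⟨β, hβ⟩‖ = ‖fe ⟨β, hβ⟩‖ := by
    have h1 := congrArg (fun x => ‖fe x‖) hτβ
    simp only [map_pow, norm_pow] at h1
    exact (pow_left_inj₀ (norm_nonneg _) (norm_nonneg _) hm'.ne').1 h1
  rw [hβτ] at r2
  set P := ∏ i ∈ I.attach, ‖fe ⟨α i.1, D.hx i.1 i.2⟩‖ with hP
  set P' := ∏ i ∈ I.attach, ‖(fe.comp τ) ⟨α i.1, D.hx i.1 i.2⟩‖ with hP'
  have hPP : P = P' := by
    have h1 : P * (Q ^ e * ‖fe ⟨β, hβ⟩‖) = P' * (Q ^ e * ‖fe ⟨β, hβ⟩‖) := by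
      rw [← mul_assoc, ← mul_assoc, r1, r2]
    exact mul_right_cancel₀ (mul_ne_zero (pow_pos hQ0 e).ne' hβ1) h1
  -- the conjugate
  set P'' := ∏ i ∈ I.attach, ‖((fe.comp τ).comp cj) ⟨α i.1, D.hx i.1 i.2⟩‖ with hP''
  have hprod : P' * P'' = Q ^ (∑ i ∈ I, n i) := by
    rw [hP', hP'', ← prod_mul_distrib, ← prod_pow_eq_pow_sum, ← prod_attach I]
    refine prod_congr rfl fun i _ => ?_
    rw [← norm_mul, RingHom.comp_apply (fe.comp τ) cj, ← map_mul]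
    have h2 : (⟨α i.1, D.hx i.1 i.2⟩ : AA) * cj ⟨α i.1, D.hx i.1 i.2⟩ =
        ((Fintype.card κ : ℕ) : AA) ^ n i.1 := by
      apply Subtype.ext
      push_cast
      show α i.1 * starRingEnd ℂ (α i.1) = _
      rw [Complex.mul_conj, Complex.normSq_eq_norm_sq, hpure i.1 i.2]
      push_cast
      rfl
    rw [h2, map_pow, map_natCast, norm_pow]
  -- the exponents of the conjugate
  have hcj : ∀ i ∈ I, ((fe.comp τ).comp cj) (D.μ i) = D.Ω i ^ ((N - 1) * (v * J i)) := by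
    intro i hi
    have hr := root_N D hdN hi
    have h1 : cj (D.μ i) = D.μ i ^ (N - 1) := by
      have h2 : (D.μ i) ≠ 0 := by
        intro h0
        rw [h0, zero_pow hN.ne'] at hr
        exact zero_ne_one hr
      have h3 : D.μ i * cj (D.μ i) = 1 := by
        apply Subtype.ext
        show (D.μ i : ℂ) * starRingEnd ℂ (D.μ i : ℂ) = 1
        rw [Complex.mul_conj, Complex.normSq_eq_norm_sq]
        have h4 : ‖(D.μ i : ℂ)‖ = 1 := by
          have h5 : (D.μ i : ℂ) ^ N = 1 := by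
            have h6 := congrArg Subtype.val hr
            simpa using h6
          exact Complex.norm_eq_one_of_pow_eq_one h5 hN.ne'
        rw [h4]
        norm_num
      have h4 : D.μ i * D.μ i ^ (N - 1) = 1 := by
        rw [← pow_succ', Nat.sub_add_cancel hN, hr]
      exact mul_left_cancel₀ h2 (h3.trans h4.symm)
    rw [RingHom.comp_apply, RingHom.comp_apply, h1, map_pow, hτ1 _ hr, map_pow, map_pow, hfe i hi,
      ← pow_mul, ← pow_mul]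
    congr 1
    ring
  have hJ' : ∀ i ∈ I, ¬ d i ∣ (N - 1) * (v * J i) := fun i hi =>
    not_dvd_mul (hdN i) (coprime_pred hN) (not_dvd_mul (hdN i) hvN (hJ i hi))
  have e1 := D.est fe J hJ hfe
  have e2 := D.est ((fe.comp τ).comp cj) _ hJ' hcj
  rw [← hP] at e1
  rw [← hP''] at e2
  set ρ := ‖((c : ℕ) : PadicAlgCl c)‖ with hρ
  have hρ0 : 0 < ρ := norm_c_pos
  have hρ1 : ρ < 1 := norm_c_lt
  have hqρ : Q = ρ ^ f := by
    rw [hQ, hf]
    push_cast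
    rw [norm_pow]
  set A := wt c f N d a I J
  set B := wt c f N d a I (fun i => (N - 1) * (v * J i))
  have hP0 : 0 ≤ P := prod_nonneg fun i _ => norm_nonneg _
  have hP''0 : 0 ≤ P'' := prod_nonneg fun i _ => norm_nonneg _
  have h3 := mul_le_mul e1 e2 (mul_nonneg (pow_nonneg hP''0 _) (pow_nonneg hρ0.le _))
    (pow_nonneg hρ0.le _)
  have h4 : P ^ N * ρ ^ A * (P'' ^ N * ρ ^ B) = ρ ^ (f * N * (∑ i ∈ I, n i) + (A + B)) := by
    have h5 : P ^ N * ρ ^ A * (P'' ^ N * ρ ^ B) = (P * P'') ^ N * ρ ^ (A + B) := by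
      rw [mul_pow, pow_add]
      ring
    rw [h5, hPP, hprod, hqρ, ← pow_mul, ← pow_mul, ← pow_add]
    congr 1
    ring
  rw [h4, ← pow_add] at h3
  have h5 : f * N * ∑ i ∈ I, (n i + 1) + f * N * ∑ i ∈ I, (n i + 1) =
      f * N * (∑ i ∈ I, n i) + f * N * ∑ i ∈ I, (n i + 2) := by
    rw [← mul_add, ← mul_add, ← sum_add_distrib, ← sum_add_distrib]
    congr 1
    exact sum_congr rfl fun i _ => by ring
  rw [h5] at h3
  have h6 : ρ ^ (f * N * (∑ i ∈ I, n i) + f * N * ∑ i ∈ I, (n i + 2)) <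
      ρ ^ (f * N * (∑ i ∈ I, n i) + (A + B)) :=
    pow_lt_pow_right_of_lt_one₀ hρ0 hρ1 (by omega)
  exact absurd h3 (not_le.2 h6)

/-- **No resonance, by the level.** -/
theorem core_lev (κ : Type)
    [Field κ] [Fintype κ] [CharP κ c] (hf : Fintype.card κ = c ^ f)
    (D : Data c N f d n a I α)
    (hpure : ∀ i ∈ I, ‖α i‖ ^ 2 = (Fintype.card κ : ℝ) ^ n i)
    {β : ℂ} (hβ : β ∈ AA) {j : ℕ} (hβj : ‖β‖ ^ 2 = (Fintype.card κ : ℝ) ^ j) {lam : ℕ}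
    (hlev : IsIntegral ℤ ((Fintype.card κ : ℂ) ^ lam * β / starRingEnd ℂ β)) {e m w : ℕ}
    (hm : 0 < m) (heq : ((∏ i ∈ I, α i) * (Fintype.card κ : ℂ) ^ e * β) ^ m =
      (Fintype.card κ : ℂ) ^ (m * w))
    (fe : AA →+* PadicAlgCl c) {J : ι → ℕ} (hJ : ∀ i ∈ I, ¬ d i ∣ J i)
    (hfe : ∀ i ∈ I, fe (D.μ i) = D.Ω i ^ J i)
    (hlt : 2 * wt c f N d a I J + f * N * lam < f * N * ∑ i ∈ I, (n i + 2)) : False := by
  classical
  have hq : 1 < Fintype.card κ := Fintype.one_lt_card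
  have hw := weights hq hpure hβj hm heq
  set ρ := ‖((c : ℕ) : PadicAlgCl c)‖ with hρ
  have hρ0 : 0 < ρ := norm_c_pos
  have hρ1 : ρ < 1 := norm_c_lt
  have hQ0 : 0 < ‖((Fintype.card κ : ℕ) : PadicAlgCl c)‖ := norm_card_pos (c := c) (L := κ)
  set P := ∏ i ∈ I.attach, ‖fe ⟨α i.1, D.hx i.1 i.2⟩‖ with hP
  have hP0 : 0 ≤ P := prod_nonneg fun i _ => norm_nonneg _
  have h1 := D.est fe J hJ hfe
  rw [← hP, ← hρ] at h1
  set A := wt c f N d a I J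
  have h6 : ∑ i ∈ I, (n i + 2) + ∑ i ∈ I, n i = 2 * ∑ i ∈ I, (n i + 1) := by
    rw [← sum_add_distrib, mul_sum]
    exact sum_congr rfl fun i _ => by ring
  have hfe2 : P ^ 2 < ‖((Fintype.card κ : ℕ) : PadicAlgCl c)‖ ^ (∑ i ∈ I, n i + lam) := by
    have hq' : ‖((Fintype.card κ : ℕ) : PadicAlgCl c)‖ = ρ ^ f := by
      rw [hf]
      push_cast
      rw [norm_pow]
    rw [hq', ← pow_mul]
    have h7 : (P ^ 2) ^ N * ρ ^ (2 * A) ≤ ρ ^ (2 * (f * N * ∑ i ∈ I, (n i + 1))) := by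
      have h8 := pow_le_pow_left₀ (mul_nonneg (pow_nonneg hP0 _) (pow_nonneg hρ0.le _)) h1 2
      rw [mul_pow, ← pow_mul, ← pow_mul, ← pow_mul, mul_comm N 2, pow_mul, mul_comm A 2,
        mul_comm _ 2] at h8
      exact h8
    have h9 : 2 * (f * N * ∑ i ∈ I, (n i + 1)) =
        f * N * ∑ i ∈ I, (n i + 2) + f * N * ∑ i ∈ I, n i := by
      rw [← mul_add, h6]
      ring
    rw [h9, pow_add] at h7
    have h10 : ρ ^ (f * N * ∑ i ∈ I, (n i + 2)) < ρ ^ (2 * A + f * N * lam) :=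
      pow_lt_pow_right_of_lt_one₀ hρ0 hρ1 hlt
    have h11 : (P ^ 2) ^ N * ρ ^ (2 * A) < ρ ^ (2 * A + f * N * lam) * ρ ^ (f * N * ∑ i ∈ I, n i) :=
      lt_of_le_of_lt h7 (mul_lt_mul_of_pos_right h10 (pow_pos hρ0 _))
    have h12 : (P ^ 2) ^ N < (ρ ^ (f * (∑ i ∈ I, n i + lam))) ^ N := by
      rw [pow_add, mul_assoc, mul_comm (ρ ^ (2 * A))] at h11
      have h13 := lt_of_mul_lt_mul_right h11 (pow_nonneg hρ0.le _)
      rw [← pow_add] at h13
      have h14 : f * N * lam + f * N * ∑ i ∈ I, n i = f * (∑ i ∈ I, n i + lam) * N := by ring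
      rw [h14, pow_mul ρ _ N] at h13
      exact h13
    exact lt_of_pow_lt_pow_left₀ N (pow_nonneg hρ0.le _) h12
  exact real_contra hQ0 hfe2 (rel_emb D.hx hβ hm heq fe) (lev_emb hq hβ hβj hlev fe) hw

end

/-- the condition on the exponents, for one set of indices: the level, or an automorphism -/
def SepI {ι : Type} (c f N : ℕ) (d n s : ι → ℕ) (a : ∀ i, Fin (s i) → ℕ) (S : Set ℂ)
    (I : Finset ι) : Prop :=
  ∀ j : ι → ℕ, (∀ i ∈ I, ¬ d i ∣ j i) → ∃ u : ℕ, u.Coprime N ∧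
    ((∃ lam : ℕ, (∀ β ∈ S, IsIntegral ℤ (((c ^ f : ℕ) : ℂ) ^ lam * β / starRingEnd ℂ β)) ∧
      2 * wt c f N d a I (fun i => u * j i) + f * N * lam < f * N * ∑ i ∈ I, (n i + 2)) ∨
     ∃ v : ℕ, MovesBy N v S ∧
      wt c f N d a I (fun i => u * j i) + wt c f N d a I (fun i => (N - 1) * (v * (u * j i))) <
        f * N * ∑ i ∈ I, (n i + 2))

theorem MovesBy.mono {N v : ℕ} {S T : Set ℂ} (h : MovesBy N v S) (hT : T ⊆ S) : MovesBy N v T := by
  obtain ⟨τ, h1, h2⟩ := h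
  exact ⟨τ, h1, fun β hβ => h2 β (hT hβ)⟩

/-- **No resonances.** -/
theorem core {ι : Type} {N f : ℕ} (hN : 0 < N) {d n s : ι → ℕ}
    (hd : ∀ i, 2 ≤ d i) (hdN : ∀ i, d i ∣ N) (κ : Type) [Field κ] [Fintype κ] [CharP κ c]
    (hf : Fintype.card κ = c ^ f) {z : ι → κ} (hz : ∀ i, IsPrimitiveRoot (z i) (d i))
    (l : ∀ i, Fin (s i) → Fin (n i + 1) → κ) (a : ∀ i, Fin (s i) → ℕ)
    (ha : ∀ i k, (a i k).Coprime (d i))
    {W : ι → Type} [∀ i, AddCommGroup (W i)] [∀ i, Module ℂ (W i)]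
    [∀ i, FiniteDimensional ℂ (W i)] {Φ g : ∀ i, Module.End ℂ (W i)}
    (h : ∀ i, IsCov (d i) (l i) (a i) (z i) (Φ i) (g i))
    {S : Set ℂ} {I : Finset ι} (hsep : SepI c f N d n s a S I)
    {α : ι → ℂ} (hα : ∀ i ∈ I, (Φ i).HasEigenvalue (α i))
    (hpure : ∀ i ∈ I, ‖α i‖ ^ 2 = (Fintype.card κ : ℝ) ^ n i)
    {β : ℂ} (hβS : β ∈ S) (hβ : IsAlgebraic ℚ β) {j : ℕ}
    (hβj : ‖β‖ ^ 2 = (Fintype.card κ : ℝ) ^ j) {e m w : ℕ}
    (hm : 0 < m) (heq : ((∏ i ∈ I, α i) * (Fintype.card κ : ℂ) ^ e * β) ^ m =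
      (Fintype.card κ : ℂ) ^ (m * w)) : False := by
  classical
  have hq : 1 < Fintype.card κ := Fintype.one_lt_card
  have hq1 : (1 : ℝ) < Fintype.card κ := by exact_mod_cast hq
  have hq0 : (0 : ℝ) < Fintype.card κ := by linarith
  have hα0 : ∀ i ∈ I, α i ≠ 0 := by
    intro i hi h0
    have h1 := hpure i hi
    rw [h0, norm_zero, zero_pow two_ne_zero] at h1
    exact (pow_pos hq0 (n i)).ne h1
  obtain ⟨D⟩ := exists_data (N := N) hd hdN κ hf hz l a ha h hα hα0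
  have hβA : β ∈ AA := mem_algebraicClosure_iff.mpr hβ
  obtain ⟨fe⟩ : Nonempty (AA →+* PadicAlgCl c) := by
    have : Algebra.IsAlgebraic ℚ AA := algebraicClosure.isAlgebraic ℚ ℂ
    exact ⟨((IsAlgClosed.lift : AA →ₐ[ℚ] PadicAlgCl c) : AA →+* PadicAlgCl c)⟩
  obtain ⟨j0, hj1, hj2⟩ := D.exists_exp hd fe
  obtain ⟨u, hu, hcase⟩ := hsep j0 hj1
  obtain ⟨fe', hfe'⟩ := D.exists_unit hN hdN fe hj2 hu
  have hJ : ∀ i ∈ I, ¬ d i ∣ u * j0 i := fun i hi => not_dvd_mul (hdN i) hu (hj1 i hi)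
  rcases hcase with ⟨lam, hlev, hlt⟩ | ⟨v, hv, hlt⟩
  · have hlev' := hlev β hβS
    rw [← hf] at hlev'
    exact core_lev κ hf D hpure hβA hβj hlev' hm heq fe' hJ hfe' hlt
  · exact core_auto hN hdN κ hf D hpure hβA hm heq
      (hv.mono (Set.singleton_subset_iff.2 hβS)) fe' hJ hfe' hlt

end Run7.h199.CV
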