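import Pool.Agent.N876.GB3.Defs

/-!
# Definitions for `MP_3af9db_ag.SeparatedCoverings`
-/

set_option autoImplicit false

open Finset Polynomial
open CategoryTheory hiding Injective IsIso
open AlgebraicGeometry hiding Surjective
open scoped TensorProduct

namespace Run7.h199.CV.GB3

open Pool.Agent.H914 Pool.Agent.H914.VarClass Pool.Agent.H914.VarClass.Obj Pool.Agent.W492.BB
  Pool.Agent.W484.CK Pool.Agent.N876.GB3

/-- Some automorphism of the field of algebraic numbers acts on the roots of unity of order `N` as the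
power `v`, and maps `β` to `β` times a root of unity. -/
def FixedWith (N v : ℕ) (β : ℂ) : Prop :=
  ∃ τ : algebraicClosure ℚ ℂ →+* algebraicClosure ℚ ℂ, (∀ ζ, ζ ^ N = 1 → τ ζ = ζ ^ v) ∧
    ∀ b : algebraicClosure ℚ ℂ, (b : ℂ) = β → ∃ m : ℕ, 0 < m ∧ τ b ^ m = b ^ m

/-- `β` is separated from the coverings. -/
def IsSeparated {κ : Type} [Field κ] {ι : Type} (X : ι → Covering κ) (c f N : ℕ) (β : ℂ) : Prop :=
  ∀ I : Finset ι, I.Nonempty → ∀ j : ι → ℕ, (∀ i ∈ I, ¬ (X i).N ∣ j i) →
    ∃ u : ℕ, u.Coprime N ∧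
      ((∃ lam : ℕ, IsIntegral ℤ (((c ^ f : ℕ) : ℂ) ^ lam * β / starRingEnd ℂ β) ∧
        ∑ i ∈ I, (X i).weight c f (u * j i) + (lam : ℚ) / 2 < ∑ i ∈ I, (((X i).n : ℚ) / 2 + 1)) ∨
      ∃ v : ℕ, FixedWith N v β ∧ ∑ i ∈ I, (((X i).s : ℚ) - (X i).n - 2) <
        ∑ i ∈ I, (X i).weight c f (v * (u * j i)) - ∑ i ∈ I, (X i).weight c f (u * j i))

/-- The field `κ` has `c ^ f` elements, the coverings are admissible, and `N` is a common multiple of
their degrees. -/
structure IsSystem {κ : Type} [Field κ] [Fintype κ] {ι : Type} (C : ι → Covering κ)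
    (c f N : ℕ) : Prop where
  card : Fintype.card κ = c ^ f
  admissible : ∀ i, (C i).IsAdmissible
  pos : 0 < N
  dvd : ∀ i, (C i).N ∣ N

/-- `b` is an algebraic number, `|b| ^ 2` is a power of `q`, and `b` is separated from the coverings. -/
structure IsGood {κ : Type} [Field κ] {ι : Type} (C : ι → Covering κ) (c f N q : ℕ) (b : ℂ) :
    Prop where
  algebraic : IsAlgebraic ℚ b
  pure : ∃ j : ℕ, ‖b‖ ^ 2 = (q : ℝ) ^ j
  separated : IsSeparated C c f N b

section geometry

variable {κ : Type} [Field κ] {𝒱 : VarClass κ} {A : TheoryData.{0, 0, 0} 𝒱 ℚ} {K : Type} [Field K]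

/-- `F` is the Frobenius endomorphism of the varieties over `κ`, the varieties `X i` are models of the
coverings, and the products of the eigenvalues of Frobenius on `H(Z)` and the roots of `χ`, and `1`, are
separated from the coverings. -/
structure IsSeparatedSystem [Fintype κ] [CharZero K] {ι : Type} (C : ι → Covering κ) (c f N : ℕ)
    (H : WeilTheoryData.{0, 0, 0} A K) (τ : K →+* ℂ) (F : ∀ X : 𝒱.Obj, X ⟶ X) (X : ι → 𝒱.Obj)
    (Z : 𝒱.Obj) (χ : ℚ[X]) : Prop where
  standard : IsStandard H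
  frobenius : ∀ X, IsFrobenius A (F X) (Fintype.card κ)
  product : ∀ X Y, F (X.prod Y) = prodMap (F X) (F Y)
  model : ∀ i, IsModel (C i) H (F (X i)) τ
  polarized : ∀ i, IsPolarized H (X i)
  algebraic : ∀ b ∈ eigenvaluesOf (H.pull (F Z)) τ, IsAlgebraic ℚ b
  ne_zero : χ.coeff 0 ≠ 0
  base : ∀ b ∈ productsOf (H.pull (F Z)) χ τ, IsGood C c f N (Fintype.card κ) b
  one : IsSeparated C c f N 1

end geometry

/-- The covering `w ^ N = l_1 ⋯ l_N` of the projective space of dimension `N - 2`, for a prime number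
`N`. -/
structure IsSpecial {κ : Type} [Field κ] (X : Covering κ) : Prop where
  prime : X.N.Prime
  card : X.s = X.N
  dim : X.n + 2 = X.N
  one : ∀ k, X.a k = 1

end Run7.h199.CV.GB3
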