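import Pool.Agent.Run7.h199.CV.NR

/-!
# Criteria for separated numbers
-/

set_option autoImplicit false

namespace Run7.h199.CV

open Finset Polynomial Pool.Agent.N876.TC Pool.Agent.N876.UV Pool.Agent.N876.FL
open Pool.Agent.W528.HA Pool.Agent.W528.HB

section

variable {c f : ℕ} {ι : Type} {d n s : ι → ℕ} {a : ∀ i, Fin (s i) → ℕ}

/-- the weight of the special coverings -/
theorem ratWt_special (hf : 0 < f) {s d : ℕ} {a : Fin s → ℕ} (hd : 2 ≤ d) (hs : s = d)
    (ha : ∀ k, a k = 1) (hc : c % d = 1) (x : ℕ) : ratWt c f d a x = ((x % d : ℕ) : ℚ) := by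
  have hf' : (f : ℚ) ≠ 0 := by exact_mod_cast hf.ne'
  have hN' : (d : ℚ) ≠ 0 := by exact_mod_cast (by omega : d ≠ 0)
  unfold ratWt
  have h1 : ∀ k, ∑ t ∈ range f, (((x * a k * c ^ t) % d : ℕ) : ℚ) =
      f * ((x % d : ℕ) : ℚ) := by
    intro k
    have h2 : ∀ t ∈ range f, (((x * a k * c ^ t) % d : ℕ) : ℚ) = ((x % d : ℕ) : ℚ) := by
      intro t _
      have h4 : c ≡ 1 [MOD d] := by
        show c % d = 1 % d
        rw [hc, Nat.mod_eq_of_lt (by omega)]
      have h3 : c ^ t ≡ 1 [MOD d] := by simpa using h4.pow t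
      have h5 : x * a k * c ^ t ≡ x [MOD d] := by
        have h6 := h3.mul_left (x * a k)
        rw [ha k, mul_one, mul_one] at h6
        rw [ha k, mul_one]
        exact h6
      have h7 : (x * a k * c ^ t) % d = x % d := h5
      rw [h7]
    rw [sum_congr rfl h2, sum_const, card_range, nsmul_eq_mul]
  rw [sum_congr rfl fun k _ => h1 k, sum_const, card_univ, Fintype.card_fin, nsmul_eq_mul, hs]
  field_simp

/-- **A number is separated from the coverings `w ^ d = l_1 ⋯ l_d` if some powers generate fields without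
the roots of unity of order `d`.** -/
theorem sep_special_raw (hf0 : 0 < f) [Fintype ι] [DecidableEq ι]
    (hp : ∀ i, (d i).Prime) (hs : ∀ i, s i = d i) (hn : ∀ i, n i + 2 = d i)
    (ha : ∀ i k, a i k = 1) (hc : ∀ i, c % d i = 1)
    (hne : ∀ i i', i ≠ i' → d i ≠ d i') {β : ℂ} (hβ : IsAlgebraic ℚ β)
    (h : ∀ i, ∃ m : ℕ, 0 < m ∧ ∃ ζ : ℂ, ζ ^ d i = 1 ∧
      ζ ∉ IntermediateField.adjoin ℚ {β ^ m}) :
    Sep c f (∏ i, d i) d n s a β := by
  classical
  set N := ∏ i, d i with hNdef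
  have hN : 0 < N := prod_pos fun i _ => (hp i).pos
  have hdN : ∀ i, d i ∣ N := fun i => dvd_prod_of_mem _ (mem_univ i)
  have hco : ∀ i i', i ≠ i' → (d i).Coprime (d i') := fun i i' hii =>
    (Nat.coprime_primes (hp i) (hp i')).2 (hne i i' hii)
  have hβA : β ∈ AA := mem_algebraicClosure_iff.mpr hβ
  intro I hI j hj
  obtain ⟨i₀, hi₀⟩ := hI
  -- the automorphism
  obtain ⟨m, hm, ζ, hζ, hζm⟩ := h i₀
  have hζA : ζ ∈ AA := by
    refine mem_algebraicClosure_iff.mpr ⟨Polynomial.X ^ d i₀ - 1, ?_, ?_⟩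
    · exact X_pow_sub_C_ne_zero (hp i₀).pos (1 : ℚ)
    · rw [map_sub, map_pow, aeval_X, map_one, hζ, sub_self]
  obtain ⟨τ, hτ1, hτ2⟩ := exists_moving (γ := (⟨β, hβA⟩ : AA) ^ m) (ζ := ⟨ζ, hζA⟩) hζm
  obtain ⟨v, hv⟩ := exists_exponent hN τ
  have hMv : MovesBy N v {β} := by
    refine ⟨τ, hv, ?_⟩
    rintro b hb
    refine ⟨m, hm, ?_⟩
    have hb' : b = ⟨β, hβA⟩ := Subtype.ext hb
    rw [hb', ← map_pow]
    exact hτ1
  have hvN := hMv.coprime hN
  have hv1 : v % d i₀ ≠ 1 := by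
    intro h0
    apply hτ2
    have h1 : (⟨ζ, hζA⟩ : AA) ^ d i₀ = 1 := Subtype.ext (by simpa using hζ)
    have h2 : (⟨ζ, hζA⟩ : AA) ^ N = 1 := by
      obtain ⟨t, ht⟩ := hdN i₀
      rw [ht, pow_mul, h1, one_pow]
    rw [hv _ h2, ← Nat.div_add_mod v (d i₀), pow_add, pow_mul, h1, one_pow, one_mul, h0, pow_one]
  have hv0 : v % d i₀ ≠ 0 := by
    intro h0
    have h1 := Nat.dvd_of_mod_eq_zero h0
    have h2 : d i₀ ∣ 1 := by
      have h3 := Nat.dvd_gcd h1 (hdN i₀)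
      rwa [hvN] at h3
    exact (hp i₀).one_lt.ne' (Nat.dvd_one.1 h2)
  -- the differences
  set D : ι → ℕ → ℤ := fun i x => ((v * x % d i : ℕ) : ℤ) - ((x % d i : ℕ) : ℤ) with hD
  have hneg : ∀ i x, ¬ d i ∣ x → D i ((N - 1) * x) = - D i x := by
    intro i x hx
    have h1 : ¬ d i ∣ v * x := not_dvd_mul (hdN i) hvN hx
    have h2 := neg_mod hN (hdN i) h1
    have h3 := neg_mod hN (hdN i) hx
    have h4 : v * ((N - 1) * x) = (N - 1) * (v * x) := by ring
    simp only [hD]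
    rw [h4, h2, h3, Nat.cast_sub (Nat.mod_lt _ (hp i).pos).le,
      Nat.cast_sub (Nat.mod_lt _ (hp i).pos).le]
    ring
  obtain ⟨ε, hε, hR⟩ : ∃ ε : ℕ, ε.Coprime N ∧ 0 ≤ ∑ i ∈ I.erase i₀, D i (ε * j i) := by
    rcases le_total 0 (∑ i ∈ I.erase i₀, D i (1 * j i)) with h0 | h0
    · exact ⟨1, Nat.coprime_one_left _, h0⟩
    · refine ⟨N - 1, coprime_pred hN, ?_⟩
      have h1 : ∑ i ∈ I.erase i₀, D i ((N - 1) * j i) = - ∑ i ∈ I.erase i₀, D i (1 * j i) := by
        rw [← sum_neg_distrib]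
        refine sum_congr rfl fun i hi => ?_
        rw [one_mul]
        exact hneg i (j i) (hj i (mem_of_mem_erase hi))
      rw [h1]
      omega
  -- the inverse of `j i₀`
  have hjc : (j i₀).Coprime (d i₀) :=
    ((Nat.Prime.coprime_iff_not_dvd (hp i₀)).2 (hj i₀ hi₀)).symm
  obtain ⟨j', -, hj'⟩ := Nat.exists_mul_mod_eq_one_of_coprime hjc (hp i₀).one_lt
  have hj'c : j'.Coprime (d i₀) := by
    refine ((Nat.Prime.coprime_iff_not_dvd (hp i₀)).2 ?_).symm
    intro h1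
    have h2 : j i₀ * j' % d i₀ = 0 := Nat.mod_eq_zero_of_dvd (h1.mul_left (j i₀))
    omega
  obtain ⟨u, hu1, hu2⟩ := exists_crt (d := d) (fun i => (hp i).pos) hco
    (fun i => if i = i₀ then j' else ε) (fun i => by
      by_cases hi : i = i₀
      · subst hi
        rw [if_pos rfl]
        exact hj'c
      · rw [if_neg hi]
        exact Nat.Coprime.coprime_dvd_right (hdN i) hε)
  refine ⟨u, hu1, Or.inr ⟨v, hMv, ?_⟩⟩
  have hz : ∑ i ∈ I, ((s i : ℚ) - n i - 2) = 0 := by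
    refine sum_eq_zero fun i _ => ?_
    rw [hs i, ← hn i]
    push_cast
    ring
  rw [hz, sum_congr rfl fun i _ =>
      ratWt_special hf0 (hp i).two_le (hs i) (ha i) (hc i) (v * (u * j i)),
    sum_congr rfl fun i _ => ratWt_special hf0 (hp i).two_le (hs i) (ha i) (hc i) (u * j i),
    ← sum_sub_distrib]
  have hfin : (0 : ℤ) < ∑ i ∈ I, D i (u * j i) := by
    rw [← add_sum_erase I _ hi₀]
    have h1 : ∑ i ∈ I.erase i₀, D i (u * j i) = ∑ i ∈ I.erase i₀, D i (ε * j i) := by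
      refine sum_congr rfl fun i hi => ?_
      have h2 := hu2 i
      rw [if_neg (ne_of_mem_erase hi)] at h2
      have h3 : u * j i ≡ ε * j i [MOD d i] := h2.mul_right _
      have h4 : v * (u * j i) ≡ v * (ε * j i) [MOD d i] := h3.mul_left _
      simp only [hD]
      rw [show v * (u * j i) % d i = v * (ε * j i) % d i from h4,
        show u * j i % d i = ε * j i % d i from h3]
    have h5 : 0 < D i₀ (u * j i₀) := by
      have h2 := hu2 i₀
      rw [if_pos rfl] at h2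
      have h3 : u * j i₀ ≡ 1 [MOD d i₀] := by
        have h4 : u * j i₀ ≡ j' * j i₀ [MOD d i₀] := h2.mul_right _
        refine h4.trans ?_
        rw [mul_comm]
        show j i₀ * j' % d i₀ = 1 % d i₀
        rw [hj', Nat.mod_eq_of_lt (hp i₀).one_lt]
      have h4 : v * (u * j i₀) ≡ v [MOD d i₀] := by
        have h5 := h3.mul_left v
        rwa [mul_one] at h5
      simp only [hD]
      rw [show v * (u * j i₀) % d i₀ = v % d i₀ from h4,
        show u * j i₀ % d i₀ = 1 % d i₀ from h3,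
        Nat.mod_eq_of_lt (hp i₀).one_lt]
      omega
    rw [h1]
    omega
  have h6 : ((∑ i ∈ I, D i (u * j i) : ℤ) : ℚ) =
      ∑ i ∈ I, ((((v * (u * j i)) % d i : ℕ) : ℚ) - (((u * j i) % d i : ℕ) : ℚ)) := by
    simp only [hD]
    push_cast
    rfl
  rw [← h6]
  exact_mod_cast hfin

end

/-- numbers of small degree -/
theorem small_degree' {β : ℂ} (hβ : IsAlgebraic ℚ β) {p : ℕ} (hp : p.Prime)
    (h : (minpoly ℚ β).natDegree < p - 1) :
    ∃ ζ : ℂ, ζ ^ p = 1 ∧ ζ ∉ IntermediateField.adjoin ℚ {β ^ 1} := by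
  have hζ := Complex.isPrimitiveRoot_exp p hp.ne_zero
  refine ⟨_, hζ.pow_eq_one, fun hmem => ?_⟩
  rw [pow_one] at hmem
  have hint : IsIntegral ℚ β := hβ.isIntegral
  have hfd : FiniteDimensional ℚ (IntermediateField.adjoin ℚ {β}) :=
    IntermediateField.adjoin.finiteDimensional hint
  have h1 := minpoly.natDegree_le (A := ℚ)
    (⟨Complex.exp (2 * Real.pi * Complex.I / p), hmem⟩ : IntermediateField.adjoin ℚ {β})
  have h0 := minpoly.algebraMap_eq (A := ℚ)
    (algebraMap (IntermediateField.adjoin ℚ {β}) ℂ).injective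
    (⟨Complex.exp (2 * Real.pi * Complex.I / p), hmem⟩ : IntermediateField.adjoin ℚ {β})
  rw [IntermediateField.adjoin.finrank hint, ← h0] at h1
  have h2 : minpoly ℚ (Complex.exp (2 * Real.pi * Complex.I / p)) = cyclotomic p ℚ :=
    (cyclotomic_eq_minpoly_rat hζ hp.pos).symm
  have h3 : (minpoly ℚ (Complex.exp (2 * Real.pi * Complex.I / p))).natDegree = p - 1 := by
    rw [h2, natDegree_cyclotomic, Nat.totient_prime hp]
  have h4 : p - 1 ≤ (minpoly ℚ β).natDegree := by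
    rw [← h3]
    exact h1
  omega

section

variable {c f N : ℕ} {ι : Type} {d n s : ι → ℕ} {a : ∀ i, Fin (s i) → ℕ}

/-- the weights of opposite exponents -/
theorem ratWt_neg (hf0 : 0 < f) (hN : 0 < N) {s d : ℕ} {a : Fin s → ℕ} (hdN : d ∣ N)
    (ha : ∀ k, (a k).Coprime d) (hc : c.Coprime d) {x : ℕ} (hx : ¬ d ∣ x) :
    ratWt c f d a ((N - 1) * x) = (s : ℚ) - ratWt c f d a x := by
  have h1 := wt_neg (c := c) (f := f) hN (d := fun _ : Unit => d) (s := fun _ => s)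
    (fun _ => hdN) (fun _ => a) (fun _ => ha) (fun _ => hc)
    (I := {()}) (J := fun _ => x) (fun _ _ => hx)
  have h2 := congrArg (fun t : ℕ => (t : ℚ)) h1
  simp only [Nat.cast_add, Nat.cast_mul, Nat.cast_sum, sum_singleton] at h2
  rw [wt_cast hf0 hN (d := fun _ : Unit => d) (fun _ => hdN) (fun _ => a) {()},
    wt_cast hf0 hN (d := fun _ : Unit => d) (fun _ => hdN) (fun _ => a) {()}] at h2
  rw [sum_singleton, sum_singleton] at h2
  have hfN : ((f : ℚ) * N) ≠ 0 := by positivity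
  have h3 : (f * N : ℚ) * (ratWt c f d a ((N - 1) * x) + ratWt c f d a x) = (f * N) * s := by
    rw [mul_add]
    exact h2
  have h4 := mul_left_cancel₀ hfN h3
  linarith

/-- complex conjugation -/
theorem sep_conj_raw (hf0 : 0 < f) (hN : 0 < N) (hdN : ∀ i, d i ∣ N)
    (ha : ∀ i k, (a i k).Coprime (d i)) (hc : ∀ i, c.Coprime (d i)) {β : ℂ}
    (hβ : MovesBy N (N - 1) {β})
    (h : ∀ I : Finset ι, I.Nonempty → ∀ j : ι → ℕ, (∀ i ∈ I, ¬ d i ∣ j i) →
      ∃ u : ℕ, u.Coprime N ∧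
        ∑ i ∈ I, ratWt c f (d i) (a i) (u * j i) < ∑ i ∈ I, ((n i : ℚ) / 2 + 1)) :
    Sep c f N d n s a β := by
  intro I hI j hj
  obtain ⟨u, hu, hlt⟩ := h I hI j hj
  refine ⟨u, hu, Or.inr ⟨N - 1, hβ, ?_⟩⟩
  have h1 : ∑ i ∈ I, ratWt c f (d i) (a i) ((N - 1) * (u * j i)) =
      ∑ i ∈ I, ((s i : ℚ) - ratWt c f (d i) (a i) (u * j i)) :=
    sum_congr rfl fun i hi => ratWt_neg hf0 hN (hdN i) (ha i) (hc i)
      (not_dvd_mul (hdN i) hu (hj i hi))
  have h2 : ∑ i ∈ I, ((s i : ℚ) - n i - 2) =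
      ∑ i ∈ I, (s i : ℚ) - 2 * ∑ i ∈ I, ((n i : ℚ) / 2 + 1) := by
    rw [mul_sum, ← sum_sub_distrib]
    exact sum_congr rfl fun i _ => by ring
  rw [h2, h1, sum_sub_distrib]
  linarith

end

end Run7.h199.CV
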