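import Pool.Agent.N876.CG.ModE
import Pool.Agent.W484.CK.Main
import Pool.Agent.W484.CK.Motivic
import Pool.Agent.Run7.h199.CV.GB3Def
import Pool.Agent.Run7.h199.CV.Special

/-!
# Cycle classes on products of arbitrary varieties with cyclic coverings: separated numbers

Proof for `MP_3af9db_ag.SeparatedCoverings`; the proof is the one of the starting file
`Pool/Agent/N876/GB3/Proof.lean` (helper876), with the new theorem `Run7.h199.CV.nores_sep` on products of
eigenvalues.
-/

set_option autoImplicit false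

open Finset Polynomial
open CategoryTheory hiding Injective IsIso
open AlgebraicGeometry hiding Surjective
open scoped TensorProduct

namespace Run7.h199.CV.GB3

open Pool.Agent.H914 Pool.Agent.H914.VarClass Pool.Agent.H914.VarClass.Obj Pool.Agent.W492.BB
  Pool.Agent.W484.CK Pool.Agent.N876.GB3

theorem sep_of {κ : Type} [Field κ] {ι : Type} {C : ι → Covering κ} {c f N : ℕ} {β : ℂ}
    (h : IsSeparated C c f N β) : Run7.h199.CV.Sep c f N (fun i => (C i).N) (fun i => (C i).n)
      (fun i => (C i).s) (fun i => (C i).a) β := by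
  intro I hI j hj
  obtain ⟨u, hu, h1 | ⟨v, ⟨τ, hτ1, hτ2⟩, h2⟩⟩ := h I hI j hj
  · exact ⟨u, hu, Or.inl h1⟩
  · exact ⟨u, hu, Or.inr ⟨v, ⟨τ, hτ1, fun b hb => hτ2 b hb⟩, h2⟩⟩

theorem main (c : ℕ) [Fact c.Prime] (κ : Type) [Field κ] [Fintype κ] [CharP κ c] {ι : Type}
    (C : ι → Covering κ) (f N : ℕ) (hC : IsSystem C c f N)
    {𝒱 : VarClass κ} (A : TheoryData.{0, 0, 0} 𝒱 ℚ) [IsChow A] {K : Type} [Field K]
    [IsAlgClosed K] [CharZero K] (H : WeilTheoryData.{0, 0, 0} A K) [IsWeil H] (τ : K →+* ℂ)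
    (F : ∀ X : 𝒱.Obj, X ⟶ X) (X : ι → 𝒱.Obj) (Z : 𝒱.Obj) (χ : ℚ[X])
    (h : IsSeparatedSystem C c f N H τ F X Z χ) (U : Homology K) (hU : IsHomology U χ)
    (T : Theory A) (hT : IsTheory T) (hF : HasFrobenius T F (Fintype.card κ))
    (reg : ∀ X, T.M X → U.R H X) (hreg : IsRegulator T reg) (L : List ι) (hL : L.Nodup) :
    Conclusions F (Fintype.card κ) χ X Z T reg L := by
  obtain ⟨hf, hC, hN, hdN⟩ := hC
  obtain ⟨hstd, hfrob, hprod, hmodel, hpol, halg, hχ0, hbase, hone⟩ := h
  have hfin := hstd.finite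
  choose g T' hσT hgT hT' hcov hpure using hmodel
  have hcov' : ∀ i, Pool.Agent.N876.TC.IsCov (C i).N (C i).l (C i).a (C i).z
      ((ofHom (H.pull (F (X i)))).restrict (hσT i)) ((ofHom (H.pull (g i))).restrict (hgT i)) :=
    fun i => ⟨(hcov i).commute, (hcov i).order, (hcov i).invariants,
      fun L _ _ _ t => (hcov i).lefschetz L t⟩
  have hres : ∀ SZ : Set K, (∀ β ∈ SZ, IsAlgebraic ℚ (τ β) ∧
      (∃ j : ℕ, ‖τ β‖ ^ 2 = (Fintype.card κ : ℝ) ^ j) ∧ IsSeparated C c f N (τ β)) →
      Pool.Agent.N876.FL.NoResF (Fintype.card κ : K)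
        (fun i => {α | Module.End.HasEigenvalue
          ((ofHom (H.pull (F (X i)))).restrict (hσT i)) α}) SZ :=
    fun SZ hSZ => Run7.h199.CV.nores_sep hN (fun i => (hC i).two_le) hdN κ hf
      (fun i => (hC i).root) (fun i => (C i).l) (fun i => (C i).a) (fun i => (hC i).coprime) τ
      hcov' hpure fun β hβ => ⟨(hSZ β hβ).1, (hSZ β hβ).2.1, sep_of (hSZ β hβ).2.2⟩
  have htw : ∀ L : List ι, productOf X Z L = Pool.Agent.N876.CG.tw X Z L := by
    intro L
    induction L with
    | nil => rfl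
    | cons i L ih => rw [productOf, Pool.Agent.N876.CG.tw, ih]
  have hdim : ∀ L : List ι, dimension X L = Pool.Agent.N876.CG.dims X L := by
    intro L
    induction L with
    | nil => rfl
    | cons i L ih => rw [dimension, Pool.Agent.N876.CG.dims, ih]
  have hq0 : Fintype.card κ ≠ 0 := Fintype.card_ne_zero
  have hsys : Pool.Agent.N876.CG.Cr H F (Fintype.card κ) X Z
      (fun i => {α | Module.End.HasEigenvalue
          ((ofHom (H.pull (F (X i)))).restrict (hσT i)) α}) {ρ | aeval ρ χ = 0} :=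
    { std := isStandard_bridge hstd
      one_lt := Fintype.one_lt_card
      frob := fun X => isFrobenius_bridge (hfrob X)
      prod := hprod
      cg := fun i => ⟨T' i, hσT i, hT' i, fun α hα => hα⟩
      int := fun i α hα => Run7.h199.CV.int_cov' (fun i => (hC i).two_le) hdN κ hf
        (fun i => (hC i).root) (fun i => (C i).l) (fun i => (C i).a) (fun i => (hC i).coprime) τ
        hcov' hpure i α hα
      ne := fun i α hα h0 => by
        have h1 := hpure i α hα
        rw [h0, map_zero, norm_zero, zero_pow two_ne_zero] at h1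
        have h2 : (0 : ℝ) < (Fintype.card κ : ℝ) := by exact_mod_cast Nat.pos_of_ne_zero hq0
        exact (pow_pos h2 _).ne h1
      intZ := fun β hβ => Pool.Agent.N876.CG.integral_of_emb τ (halg _ ⟨β, hβ, rfl⟩)
      res := by
        refine hres _ ?_
        rintro _ ⟨β, ρ, hβ, hρ, rfl⟩
        have h1 := hbase _ ⟨β, ρ, hβ, hρ, rfl⟩
        exact ⟨h1.algebraic, h1.pure, h1.separated⟩
      res1 := by
        refine hres _ ?_
        rintro _ rfl
        rw [map_one]
        exact ⟨isAlgebraic_one, ⟨0, by rw [norm_one, one_pow, pow_zero]⟩, hone⟩ }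
  have hdimV : ((productOf X Z L).dim : ℤ) = Z.dim + dimension X L := by
    clear hL
    induction L with
    | nil => simp [productOf, dimension]
    | cons i L ih =>
      rw [productOf, dimension, Obj.dim_prod]
      push_cast
      rw [ih]
      ring
  let T' : MotivicData A :=
    { M := T.M
      gr := T.gr
      act := fun {X Y} =>
        { toFun := fun c => (hT.right c).mk' _
          map_add' := fun c d => LinearMap.ext fun z => (hT.left z).map_add c d
          map_smul' := fun a c => LinearMap.ext fun z => (hT.left z).map_smul a c } }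
  have hT' : IsMotivic T' :=
    { app_mem := fun hc hz => hT.mem hc hz
      app_comp := fun c d z => hT.comp c d z
      app_id := fun z => hT.id z }
  let reg' : ∀ (X : 𝒱.Obj), (toCorr T').M X →ₗ[ℚ]
      (Pool.Agent.N876.CG.modT H U.M (Pool.Agent.N876.CG.part H U.W 0)).M X := fun X =>
    (show (toCorr T').M X →+
      (Pool.Agent.N876.CG.modT H U.M (Pool.Agent.N876.CG.part H U.W 0)).M X from
        AddMonoidHom.mk' (M := T.M X) (G := U.R H X) (reg X)
          fun z w => hreg.add z w).toRatLinearMap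
  let phi0 : ∀ (X : 𝒱.Obj), Module.End ℚ (T.M X) := fun X => (hF.linear X).mk' _
  let phi : ∀ (X : 𝒱.Obj), Module.End ℚ ((toCorr T').M X) := phi0
  have hpart : ∀ (X : 𝒱.Obj) (n : ℤ),
      U.degreePart H X (2 * n) = Pool.Agent.N876.CG.part H U.W 0 X n := fun X n => by
    unfold Homology.degreePart Pool.Agent.N876.CG.part
    simp only [add_zero]
    rfl
  have hdel : ∀ (X : 𝒱.Obj) (n : ℤ) (v : U.R H X),
      Pool.Agent.N876.CG.Del (Pool.Agent.N876.CG.modT H U.M (Pool.Agent.N876.CG.part H U.W 0))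
        (Pool.Agent.N876.CG.phiM (Pool.Agent.N876.CG.part H U.W 0) U.μ) F (Fintype.card κ) X n v =
        U.defect F (Fintype.card κ) n v := fun X n v =>
    Pool.Agent.N876.CG.Del_modT n v
  have hr : Pool.Agent.N876.CG.RegTo H F (Fintype.card κ) U.W U.μ 0
      (toCorr T') phi reg' :=
    { corr := toCorr_isCorrTheory hT'
      comm := fun Γ z => hF.comm Γ z
      power := fun X n z hz => by
        have h1 := hF.power z hz
        exact sub_eq_zero.2 h1
      mem := fun X n z hz => by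
        rw [← hpart]
        exact hreg.mem z hz
      act := fun Γ z => hreg.corr
        (G := Pool.Agent.N876.CG.actM H U.M Γ)
          ⟨fun v w => map_add (Pool.Agent.N876.CG.actM H U.M Γ) v w, fun a x => rfl⟩ z
      frob := fun X z => hreg.frob
        (G := LinearMap.lTensor (H.A X) U.μ)
          ⟨fun v w => map_add (LinearMap.lTensor (H.A X) U.μ) v w, fun a x => rfl⟩ z }
  have hμ : aeval U.μ (χ.map (algebraMap ℚ K)) = 0 := by
    refine LinearMap.ext fun x => ?_
    rw [Polynomial.aeval_endomorphism, Polynomial.sum_def,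
      Polynomial.support_map_of_injective χ (algebraMap ℚ K).injective, LinearMap.zero_apply]
    refine Eq.trans (Finset.sum_congr rfl fun n _ => ?_) (hU.root x)
    rw [Polynomial.coeff_map, Module.End.pow_apply, eq_ratCast]
  have e2 : ∀ i l : ℤ, U.codim Z (i - l) = U.codim Z i + l := fun i l => by
    unfold Homology.codim
    ring
  -- the range of the codimensions
  have hrange : ∀ (i : ℤ) (P : ℤ → Prop),
      (∀ m : ℤ, U.codim (productOf X Z L) i - Pool.Agent.N876.CG.dims X L ≤ m →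
        m ≤ U.codim (productOf X Z L) i → P m) ↔
      ∀ l : ℕ, l ≤ dimension X L → P (U.codim Z i + l) := by
    intro i P
    rw [← hdim L]
    unfold Homology.codim
    rw [hdimV]
    constructor
    · intro h1 l hl
      exact h1 _ (by omega) (by omega)
    · intro h1 m h2 h3
      obtain ⟨l, hl⟩ := Int.eq_ofNat_of_zero_le
        (show 0 ≤ m - ((Z.dim : ℤ) + U.e - i) by omega)
      have h4 := h1 l (by omega)
      have h5 : (Z.dim : ℤ) + U.e - i + l = m := by omega
      rwa [h5] at h4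
  have hOns : ∀ (V : 𝒱.Obj) (n : ℤ),
      (∀ v ∈ U.degreePart H V (2 * n), U.defect F (Fintype.card κ) n v = 0 →
        ∃ z ∈ T.gr V n, reg V z = v) ↔
      ∀ v ∈ (Pool.Agent.N876.CG.eigT
        (Pool.Agent.N876.CG.modT H U.M (Pool.Agent.N876.CG.part H U.W 0))
        (Pool.Agent.N876.CG.phiM (Pool.Agent.N876.CG.part H U.W 0) U.μ) F (Fintype.card κ)).gr V n,
          ∃ z ∈ (toCorr T').gr V n, reg' V z = v := by
    intro V n
    rw [hpart]
    constructor
    · intro h1 v hv
      obtain ⟨h2, h3⟩ := Pool.Agent.N876.CG.mem_eigT.1 hv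
      exact h1 v h2 ((hdel V n v).symm.trans h3)
    · intro h1 v h2 h3
      exact h1 v (Pool.Agent.N876.CG.mem_eigT.2 ⟨h2, (hdel V n v).trans h3⟩)
  have hSns : ∀ (V : 𝒱.Obj) (n : ℤ),
      (∀ v ∈ U.degreePart H V (2 * n),
        U.defect F (Fintype.card κ) n (U.defect F (Fintype.card κ) n v) = 0 →
        U.defect F (Fintype.card κ) n v = 0) ↔
      ∀ v ∈ (Pool.Agent.N876.CG.modT H U.M (Pool.Agent.N876.CG.part H U.W 0)).gr V n,
        Pool.Agent.N876.CG.Del (Pool.Agent.N876.CG.modT H U.M (Pool.Agent.N876.CG.part H U.W 0))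
          (Pool.Agent.N876.CG.phiM (Pool.Agent.N876.CG.part H U.W 0) U.μ) F (Fintype.card κ) V n
          (Pool.Agent.N876.CG.Del
            (Pool.Agent.N876.CG.modT H U.M (Pool.Agent.N876.CG.part H U.W 0))
            (Pool.Agent.N876.CG.phiM (Pool.Agent.N876.CG.part H U.W 0) U.μ) F (Fintype.card κ)
            V n v) = 0 →
        Pool.Agent.N876.CG.Del (Pool.Agent.N876.CG.modT H U.M (Pool.Agent.N876.CG.part H U.W 0))
          (Pool.Agent.N876.CG.phiM (Pool.Agent.N876.CG.part H U.W 0) U.μ) F (Fintype.card κ)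
          V n v = 0 := by
    intro V n
    rw [hpart]
    refine forall_congr' fun v => forall_congr' fun hv => ?_
    rw [hdel, hdel]
    rfl
  have hsurj : ∀ i : ℤ, Surjective reg F (Fintype.card κ) (productOf X Z L) i ↔
      ∀ l : ℕ, l ≤ dimension X L → Surjective reg F (Fintype.card κ) Z (i - l) := by
    intro i
    have h1 := Pool.Agent.N876.CG.mod_onto hsys hpol hχ0 hμ hq0 hr hL
      (U.codim (productOf X Z L) i)
    unfold Surjective
    simp only [e2]
    rw [hOns, ← hrange i fun m => ∀ v ∈ U.degreePart H Z (2 * m),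
      U.defect F (Fintype.card κ) m v = 0 → ∃ z ∈ T.gr Z m, reg Z z = v]
    simp only [hOns]
    rw [← htw L] at h1
    exact h1
  have hsemi : ∀ i : ℤ, Semisimple U H F (Fintype.card κ) (productOf X Z L) i ↔
      ∀ l : ℕ, l ≤ dimension X L → Semisimple U H F (Fintype.card κ) Z (i - l) := by
    intro i
    have h1 := Pool.Agent.N876.CG.mod_ss hsys hpol hχ0 hμ hU.degree hq0 0 hL
      (U.codim (productOf X Z L) i)
    unfold Semisimple
    simp only [e2]
    rw [hSns, ← hrange i fun m => ∀ v ∈ U.degreePart H Z (2 * m),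
      U.defect F (Fintype.card κ) m (U.defect F (Fintype.card κ) m v) = 0 →
        U.defect F (Fintype.card κ) m v = 0]
    simp only [hSns]
    rw [← htw L] at h1
    exact h1
  refine ⟨hsurj, hsemi, fun hnil hroot i => ?_⟩
  have hinj : Injective reg (productOf X Z L) i ↔
      ∀ l : ℕ, l ≤ dimension X L → Injective reg Z (i - l) := by
    have h1 := Pool.Agent.N876.CG.mod_inj (χ := χ) hsys hpol hχ0 hr
      (fun L => Pool.Agent.N876.CG.nilT_of (toCorr_isCorrTheory hT') (by
          rw [← htw L]; exact nilpotence_bridge (hnil L)))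
      (fun X n z hz => by
        refine (Polynomial.aeval_endomorphism (R := ℚ) (M := T.M X) (phi0 X) z χ).trans ?_
        refine Eq.trans (Finset.sum_congr rfl fun n _ => ?_) (hroot X n z hz)
        refine congrArg (fun y : T.M X => χ.coeff n • y) ?_
        exact Module.End.pow_apply (R := ℚ) (M := T.M X) (phi0 X) n z) hL
      (U.codim (productOf X Z L) i)
    unfold Injective
    simp only [e2]
    rw [← hrange i fun m => ∀ z ∈ T.gr Z m, reg Z z = 0 → z = 0]
    rw [← htw L] at h1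
    exact h1
  refine ⟨hinj, ?_⟩
  unfold IsIso
  rw [hinj, hsurj]
  exact ⟨fun ⟨h3, h4⟩ l hl => ⟨h3 l hl, h4 l hl⟩,
    fun h0 => ⟨fun l hl => (h0 l hl).1, fun l hl => (h0 l hl).2⟩⟩

theorem sep_inv {κ : Type} [Field κ] {ι : Type} {C : ι → Covering κ} {c f N : ℕ} {β : ℂ}
    (h : Run7.h199.CV.Sep c f N (fun i => (C i).N) (fun i => (C i).n)
      (fun i => (C i).s) (fun i => (C i).a) β) : IsSeparated C c f N β := by
  intro I hI j hj
  obtain ⟨u, hu, h1 | ⟨v, ⟨τ, hτ1, hτ2⟩, h2⟩⟩ := h I hI j hj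
  · exact ⟨u, hu, Or.inl h1⟩
  · exact ⟨u, hu, Or.inr ⟨v, ⟨τ, hτ1, fun b hb => hτ2 b hb⟩, h2⟩⟩

/-- complex conjugation -/
theorem conj {c : ℕ} [Fact c.Prime] {κ : Type} [Field κ] [Fintype κ] [CharP κ c] {ι : Type}
    {C : ι → Covering κ} {f N : ℕ} (hC : IsSystem C c f N) {β : ℂ} (hβ : FixedWith N (N - 1) β)
    (h : ∀ I : Finset ι, I.Nonempty → ∀ j : ι → ℕ, (∀ i ∈ I, ¬ (C i).N ∣ j i) →
      ∃ u : ℕ, u.Coprime N ∧
        ∑ i ∈ I, (C i).weight c f (u * j i) < ∑ i ∈ I, (((C i).n : ℚ) / 2 + 1)) :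
    IsSeparated C c f N β := by
  refine sep_inv (Run7.h199.CV.sep_conj_raw (Run7.h199.CV.f_pos' κ hC.card) hC.pos hC.dvd
    (fun i => (hC.admissible i).coprime)
    (fun i => Run7.h199.CV.coprime_c' κ hC.card (hC.admissible i).two_le (hC.admissible i).root)
    ?_ h)
  obtain ⟨τ, hτ1, hτ2⟩ := hβ
  exact ⟨τ, hτ1, fun b hb => hτ2 b hb⟩

/-- the special coverings -/
theorem special {c : ℕ} [Fact c.Prime] {κ : Type} [Field κ] [Fintype κ] {ι : Type}
    [Fintype ι] [DecidableEq ι] {C : ι → Covering κ} {f : ℕ} (hf : Fintype.card κ = c ^ f)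
    (hs : ∀ i, IsSpecial (C i)) (hc : ∀ i, c % (C i).N = 1)
    (hne : ∀ i i', i ≠ i' → (C i).N ≠ (C i').N) {β : ℂ} (hβ : IsAlgebraic ℚ β)
    (h : ∀ i, ∃ m : ℕ, 0 < m ∧ ∃ ζ : ℂ, ζ ^ (C i).N = 1 ∧
      ζ ∉ IntermediateField.adjoin ℚ {β ^ m}) :
    IsSeparated C c f (∏ i, (C i).N) β :=
  sep_inv (Run7.h199.CV.sep_special_raw (Run7.h199.CV.f_pos' κ hf) (fun i => (hs i).prime)
    (fun i => (hs i).card) (fun i => (hs i).dim) (fun i => (hs i).one) hc hne hβ h)

end Run7.h199.CV.GB3
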