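import Pool.Agent.N876.CG.Alg
import Pool.Agent.Run7.h199.CV.Arith

/-!
# No resonances with separated numbers, over any coefficient field
-/

set_option autoImplicit false

namespace Run7.h199.CV

open Finset Polynomial Pool.Agent.N876.TC Pool.Agent.N876.UV Pool.Agent.N876.FL Pool.Agent.N876.CG
open Pool.Agent.W528.HA Pool.Agent.W528.HB

variable {c : ℕ} [Fact c.Prime]

/-- the weight `∑ a_k j c ^ t mod d`, divided by `f d` -/
def ratWt (c f : ℕ) {s : ℕ} (d : ℕ) (a : Fin s → ℕ) (j : ℕ) : ℚ :=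
  (∑ k, ∑ t ∈ range f, (((j * a k * c ^ t) % d : ℕ) : ℚ)) / (f * d)

/-- the condition of separation -/
def Sep {ι : Type} (c f N : ℕ) (d n s : ι → ℕ) (a : ∀ i, Fin (s i) → ℕ) (β : ℂ) : Prop :=
  ∀ I : Finset ι, I.Nonempty → ∀ j : ι → ℕ, (∀ i ∈ I, ¬ d i ∣ j i) →
    ∃ u : ℕ, u.Coprime N ∧
      ((∃ lam : ℕ, IsIntegral ℤ (((c ^ f : ℕ) : ℂ) ^ lam * β / starRingEnd ℂ β) ∧
        ∑ i ∈ I, ratWt c f (d i) (a i) (u * j i) + (lam : ℚ) / 2 <
          ∑ i ∈ I, ((n i : ℚ) / 2 + 1)) ∨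
      ∃ v : ℕ, MovesBy N v {β} ∧ ∑ i ∈ I, ((s i : ℚ) - n i - 2) <
        ∑ i ∈ I, ratWt c f (d i) (a i) (v * (u * j i)) -
          ∑ i ∈ I, ratWt c f (d i) (a i) (u * j i))

section

variable {ι : Type} {N : ℕ} {d n s : ι → ℕ} {f : ℕ} {a : ∀ i, Fin (s i) → ℕ}

omit [Fact c.Prime] in
theorem sepI_of_sep (hf0 : 0 < f) (hN : 0 < N) (hdN : ∀ i, d i ∣ N)
    (ha : ∀ i k, (a i k).Coprime (d i)) (hc : ∀ i, c.Coprime (d i)) {β : ℂ}
    (h : Sep c f N d n s a β) {I : Finset ι} (hI : I.Nonempty) : SepI c f N d n s a {β} I := by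
  have hfN : (0 : ℚ) < (f : ℚ) * N := by positivity
  have hsw : ∀ J : ι → ℕ, (wt c f N d a I J : ℚ) =
      (f * N) * ∑ i ∈ I, ratWt c f (d i) (a i) (J i) := fun J => wt_cast hf0 hN hdN a I J
  intro j hj
  obtain ⟨u, hu, hcase⟩ := h I hI j hj
  refine ⟨u, hu, ?_⟩
  rcases hcase with ⟨lam, h1, h2⟩ | ⟨v, hMv, h2⟩
  · left
    refine ⟨lam, ?_, ?_⟩
    · rintro b rfl
      exact h1
    · have h3 : ((2 * wt c f N d a I (fun i => u * j i) + f * N * lam : ℕ) : ℚ) <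
          ((f * N * ∑ i ∈ I, (n i + 2) : ℕ) : ℚ) := by
        push_cast
        rw [hsw]
        have h4 : ∑ i ∈ I, ((n i : ℚ) / 2 + 1) = (∑ i ∈ I, ((n i : ℚ) + 2)) / 2 := by
          rw [sum_div]
          exact sum_congr rfl fun i _ => by ring
        rw [h4] at h2
        nlinarith
      exact_mod_cast h3
  · right
    refine ⟨v, hMv, ?_⟩
    have hvN := hMv.coprime hN
    have hJ : ∀ i ∈ I, ¬ d i ∣ v * (u * j i) := fun i hi =>
      not_dvd_mul (hdN i) hvN (not_dvd_mul (hdN i) hu (hj i hi))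
    have h3 := wt_neg (c := c) (f := f) hN hdN a ha hc (I := I)
      (J := fun i => v * (u * j i)) hJ
    have h4 : (wt c f N d a I (fun i => u * j i) : ℚ) + f * N * ∑ i ∈ I, (s i : ℚ) <
        wt c f N d a I (fun i => v * (u * j i)) + f * N * ∑ i ∈ I, ((n i : ℚ) + 2) := by
      rw [hsw, hsw]
      have h5 : ∑ i ∈ I, ((s i : ℚ) - n i - 2) =
          ∑ i ∈ I, (s i : ℚ) - ∑ i ∈ I, ((n i : ℚ) + 2) := by
        rw [← sum_sub_distrib]
        exact sum_congr rfl fun i _ => by ring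
      rw [h5] at h2
      nlinarith
    have h5 : wt c f N d a I (fun i => u * j i) + f * N * ∑ i ∈ I, s i <
        wt c f N d a I (fun i => v * (u * j i)) + f * N * ∑ i ∈ I, (n i + 2) := by
      exact_mod_cast h4
    omega

end

section

variable {ι : Type} {N : ℕ} (hN : 0 < N) {d n s : ι → ℕ}
    (hd : ∀ i, 2 ≤ d i) (hdN : ∀ i, d i ∣ N) (κ : Type) [Field κ] [Fintype κ] [CharP κ c] {f : ℕ}
    (hf : Fintype.card κ = c ^ f) {z : ι → κ} (hz : ∀ i, IsPrimitiveRoot (z i) (d i))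
    (l : ∀ i, Fin (s i) → Fin (n i + 1) → κ) (a : ∀ i, Fin (s i) → ℕ)
    (ha : ∀ i k, (a i k).Coprime (d i))
    {K : Type} [Field K] [CharZero K] (σ₀ : K →+* ℂ)
    {T : ι → Type} [∀ i, AddCommGroup (T i)] [∀ i, Module K (T i)]
    [∀ i, FiniteDimensional K (T i)] {Φ g : ∀ i, Module.End K (T i)}
    (h : ∀ i, IsCov (d i) (l i) (a i) (z i) (Φ i) (g i))

omit [Fact c.Prime] [CharP κ c] in
theorem f_pos' (hf : Fintype.card κ = c ^ f) : 0 < f := by
  rcases Nat.eq_zero_or_pos f with h | h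
  · rw [h, pow_zero] at hf
    have := Fintype.one_lt_card (α := κ)
    omega
  · exact h

omit [CharP κ c] in
theorem coprime_c' (hf : Fintype.card κ = c ^ f) {d : ℕ} (hd : 2 ≤ d) {z : κ}
    (hz : IsPrimitiveRoot z d) : c.Coprime d := by
  have h1 : d ∣ c ^ f - 1 := by
    rw [← hf]
    exact dvd_card_of_root hz (by omega)
  have hf0 := f_pos' κ hf
  have h2 : 1 ≤ c ^ f := Nat.one_le_pow _ _ (Fact.out : c.Prime).pos
  have h3 : (c ^ f).Coprime d := by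
    obtain ⟨m, hm⟩ := h1
    have h4 : c ^ f = d * m + 1 := by omega
    rw [h4]
    simp
  exact Nat.Coprime.coprime_dvd_left (dvd_pow_self c hf0.ne') h3

include hd hdN hf hz ha h

theorem int_cov' (hpure : ∀ i α, (Φ i).HasEigenvalue α → ‖σ₀ α‖ ^ 2 = (Fintype.card κ : ℝ) ^ n i)
    (i : ι) (α : K) (hα : (Φ i).HasEigenvalue α) : IsIntegral ℚ α := by
  have h1 : ∀ i, ∃ (T' : Type) (_ : AddCommGroup T') (_ : Module ℂ T')
      (_ : FiniteDimensional ℂ T') (Φ' τ' : Module.End ℂ T'), IsCov (d i) (l i) (a i) (z i) Φ' τ' ∧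
        ∀ α, (Φ i).HasEigenvalue α → Φ'.HasEigenvalue (σ₀ α) :=
    fun i => exists_bc (by have := hd i; omega) (h i) σ₀
  choose T' i1 i2 i3 Φ' τ' h2 h3 using h1
  have hq1 : (1 : ℝ) < Fintype.card κ := by exact_mod_cast Fintype.one_lt_card (α := κ)
  have hq0 : (0 : ℝ) < Fintype.card κ := by linarith
  obtain ⟨D⟩ := exists_data (N := N) hd hdN κ hf hz l a ha h2 (I := {i}) (α := fun _ => σ₀ α)
    (fun i' hi' => by rw [mem_singleton.1 hi']; exact h3 i α hα)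
    (fun i' hi' h0 => by
      have h4 := hpure i α hα
      rw [h0, norm_zero, zero_pow two_ne_zero] at h4
      exact (pow_pos hq0 (n i)).ne h4)
  exact integral_of_emb σ₀ (mem_algebraicClosure_iff.mp (D.hx i (mem_singleton_self i)))

include hN

theorem nores_sep
    (hpure : ∀ i α, (Φ i).HasEigenvalue α → ‖σ₀ α‖ ^ 2 = (Fintype.card κ : ℝ) ^ n i)
    {SZ : Set K} (hZ : ∀ β ∈ SZ, IsAlgebraic ℚ (σ₀ β) ∧
      (∃ j : ℕ, ‖σ₀ β‖ ^ 2 = (Fintype.card κ : ℝ) ^ j) ∧ Sep c f N d n s a (σ₀ β)) :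
    NoResF (Fintype.card κ : K) (fun i => {α | (Φ i).HasEigenvalue α}) SZ := by
  intro I hI α hα β hβ e m w hm heq
  have h1 : ∀ i, ∃ (T' : Type) (_ : AddCommGroup T') (_ : Module ℂ T')
      (_ : FiniteDimensional ℂ T') (Φ' τ' : Module.End ℂ T'), IsCov (d i) (l i) (a i) (z i) Φ' τ' ∧
        ∀ α, (Φ i).HasEigenvalue α → Φ'.HasEigenvalue (σ₀ α) :=
    fun i => exists_bc (by have := hd i; omega) (h i) σ₀
  choose T' i1 i2 i3 Φ' τ' h2 h3 using h1
  have heq' : ((∏ i ∈ I, σ₀ (α i)) * (Fintype.card κ : ℂ) ^ e * σ₀ β) ^ m =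
      (Fintype.card κ : ℂ) ^ (m * w) := by
    have h4 := congrArg σ₀ heq
    simpa only [map_mul, map_pow, map_prod, map_natCast] using h4
  obtain ⟨hβ1, ⟨j, hβj⟩, hsep⟩ := hZ β hβ
  exact core hN hd hdN κ hf hz l a ha h2
    (sepI_of_sep (f_pos' κ hf) hN hdN ha (fun i => coprime_c' κ hf (hd i) (hz i)) hsep hI)
    (α := fun i => σ₀ (α i)) (fun i hi => h3 i _ (hα i hi))
    (fun i hi => hpure i _ (hα i hi)) (Set.mem_singleton _) hβ1 hβj hm heq'

end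

end Run7.h199.CV
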