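import Pool.Agent.Run7.h199.CV.SmDef
import Pool.Agent.Run7.h199.CV.GB3

/-!
# The theorem for smooth varieties
-/

set_option autoImplicit false

open CategoryTheory hiding Injective IsIso
open AlgebraicGeometry hiding Surjective

namespace Run7.h199.CV.Sm

open Pool.Agent.H914 Pool.Agent.H914.VarClass Pool.Agent.H914.VarClass.Obj Pool.Agent.W492.BB
  Pool.Agent.W484.CK Pool.Agent.N876.GB3

theorem of_conclusions {κ : Type} [Field κ] {𝒱 : VarClass κ} {A : TheoryData.{0, 0, 0} 𝒱 ℚ}
    {K : Type} [Field K] {ι : Type} {U : Homology K} {H : WeilTheoryData.{0, 0, 0} A K}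
    (F : ∀ X : 𝒱.Obj, X ⟶ X) (q : ℕ) (χ : Polynomial ℚ) (X : ι → 𝒱.Obj) (Z : 𝒱.Obj)
    (T : Theory A) (reg : ∀ X, T.M X → U.R H X) (L : List ι)
    (h : Conclusions F q χ X Z T reg L) : SmoothConclusions F q χ X Z T reg L := by
  have hdimV : ((productOf X Z L).dim : ℤ) = Z.dim + dimension X L := by
    clear h
    induction L with
    | nil => simp [productOf, dimension]
    | cons i L ih =>
      rw [productOf, dimension, Obj.dim_prod]
      push_cast
      rw [ih]
      ring
  have hcV : ∀ n : ℤ, U.codim (productOf X Z L) ((productOf X Z L).dim + U.e - n) = n := fun n => by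
    unfold Homology.codim
    ring
  have hcZ : ∀ (n : ℤ) (l : ℕ), U.codim Z ((productOf X Z L).dim + U.e - n - l) =
      n - dimension X L + l := fun n l => by
    unfold Homology.codim
    rw [hdimV]
    ring
  have hr : ∀ (n : ℤ) (P : ℤ → Prop), (∀ l : ℕ, l ≤ dimension X L → P (n - dimension X L + l)) ↔
      ∀ l : ℤ, n - dimension X L ≤ l → l ≤ n → P l := by
    intro n P
    constructor
    · intro h1 l h2 h3
      obtain ⟨m, hm⟩ := Int.eq_ofNat_of_zero_le (show 0 ≤ l - (n - dimension X L) by omega)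
      have h4 := h1 m (by omega)
      rwa [show n - (dimension X L : ℤ) + m = l by omega] at h4
    · intro h1 l hl
      exact h1 _ (by omega) (by omega)
  have hsurj : ∀ n : ℤ, IsSurj reg F q (productOf X Z L) n ↔
      ∀ l : ℤ, n - dimension X L ≤ l → l ≤ n → IsSurj reg F q Z l := by
    intro n
    have h1 := h.surjective ((productOf X Z L).dim + U.e - n)
    unfold Surjective at h1
    simp only [hcV, hcZ] at h1
    exact h1.trans (hr n fun m => IsSurj reg F q Z m)
  have hsemi : ∀ n : ℤ, IsSemi U H F q (productOf X Z L) n ↔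
      ∀ l : ℤ, n - dimension X L ≤ l → l ≤ n → IsSemi U H F q Z l := by
    intro n
    have h1 := h.semisimple ((productOf X Z L).dim + U.e - n)
    unfold Semisimple at h1
    simp only [hcV, hcZ] at h1
    exact h1.trans (hr n fun m => IsSemi U H F q Z m)
  refine ⟨hsurj, hsemi, fun hnil hroot n => ?_⟩
  have hinj : IsInj reg (productOf X Z L) n ↔
      ∀ l : ℤ, n - dimension X L ≤ l → l ≤ n → IsInj reg Z l := by
    have h1 := (h.bijective hnil hroot ((productOf X Z L).dim + U.e - n)).1
    unfold Injective at h1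
    simp only [hcV, hcZ] at h1
    exact h1.trans (hr n fun m => IsInj reg Z m)
  refine ⟨hinj, ?_⟩
  unfold B
  rw [hinj, hsurj n, hsemi n]
  exact ⟨fun ⟨h1, h2, h3⟩ l hl1 hl2 => ⟨h1 l hl1 hl2, h2 l hl1 hl2, h3 l hl1 hl2⟩,
    fun h0 => ⟨fun l hl1 hl2 => (h0 l hl1 hl2).1, fun l hl1 hl2 => (h0 l hl1 hl2).2.1,
      fun l hl1 hl2 => (h0 l hl1 hl2).2.2⟩⟩

end Run7.h199.CV.Sm
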