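import Pool.Agent.Run7.h199.CV.GB3Def

/-!
# Definitions for `MP_81632f_ag.SeparatedCoverings`
-/

set_option autoImplicit false

open CategoryTheory hiding Injective IsIso
open AlgebraicGeometry hiding Surjective

namespace Run7.h199.CV.Sm

open Pool.Agent.H914 Pool.Agent.H914.VarClass Pool.Agent.H914.VarClass.Obj Pool.Agent.W492.BB
  Pool.Agent.W484.CK Pool.Agent.N876.GB3

variable {κ : Type} [Field κ] {𝒱 : VarClass κ} {A : TheoryData.{0, 0, 0} 𝒱 ℚ} {K : Type} [Field K]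
  {U : Homology K} {H : WeilTheoryData.{0, 0, 0} A K} {T : Theory A}
  (reg : ∀ X, T.M X → U.R H X) (F : ∀ X : 𝒱.Obj, X ⟶ X) (q : ℕ) (X : 𝒱.Obj) (n : ℤ)

/-- The cycle class map `c^n` of `X × U` is injective. -/
def IsInj : Prop := ∀ z ∈ T.gr X n, reg X z = 0 → z = 0

/-- The cycle class map `c^n` of `X × U` is surjective onto the invariants: every `v` in
`H^{2n}(X̄ × Ū)` with `Φ v = q ^ n v` is a class of cycles. -/
def IsSurj : Prop := ∀ v ∈ U.degreePart H X (2 * n), U.defect F q n v = 0 → ∃ z ∈ T.gr X n, reg X z = v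

variable (U H)

/-- The eigenvalue `1` of the Frobenius on `H^{2n}(X̄ × Ū, ℚ_ℓ(n))` is semisimple. -/
def IsSemi : Prop := ∀ v ∈ U.degreePart H X (2 * n),
  U.defect F q n (U.defect F q n v) = 0 → U.defect F q n v = 0

variable {U H}

/-- The assertion `B^n(X × U)`. -/
def B : Prop := IsInj reg X n ∧ IsSurj reg F q X n ∧ IsSemi U H F q X n

/-- The conclusions for the product `V` of the `X i` with `i ∈ L` and of `Z`. -/
structure SmoothConclusions {ι : Type} {U : Homology K} {H : WeilTheoryData.{0, 0, 0} A K}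
    (F : ∀ X : 𝒱.Obj, X ⟶ X) (q : ℕ) (χ : Polynomial ℚ) (X : ι → 𝒱.Obj) (Z : 𝒱.Obj)
    (T : Theory A) (reg : ∀ X, T.M X → U.R H X) (L : List ι) : Prop where
  surjective : ∀ n : ℤ, IsSurj reg F q (productOf X Z L) n ↔
    ∀ l : ℤ, n - dimension X L ≤ l → l ≤ n → IsSurj reg F q Z l
  semisimple : ∀ n : ℤ, IsSemi U H F q (productOf X Z L) n ↔
    ∀ l : ℤ, n - dimension X L ≤ l → l ≤ n → IsSemi U H F q Z l
  beilinson : (∀ L, Nilpotence H (productOf X Z L)) → IsRoot T χ → ∀ n : ℤ,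
    (IsInj reg (productOf X Z L) n ↔
      ∀ l : ℤ, n - dimension X L ≤ l → l ≤ n → IsInj reg Z l) ∧
    (B reg F q (productOf X Z L) n ↔
      ∀ l : ℤ, n - dimension X L ≤ l → l ≤ n → B reg F q Z l)

end Run7.h199.CV.Sm
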